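import Pool.Agent.U409.LS.Main

/-!
# Almost all values: `Ш[2]` has at least `(log X) ^ (κ log 2 - ε)` elements
-/

set_option autoImplicit false

namespace Pool.Agent.U409.LS

open Polynomial Finset Filter
open Pool.Agent.H474R2.PG (rho)
open Pool.Agent.U214.PT (Pg Sep pg_wt)
open Pool.Agent.W262.SH (E)
open Pool.Agent.TH841.SH.D (ShaTor rk)
open Pool.Agent.U409.SH (qq)

open scoped Classical in
/-- the exceptional set -/
noncomputable def Bad (r s : ℤ) (D : ℤ[X]) (c : ℝ) (X : ℕ) : Finset ℤ :=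
  (Icc (-(X : ℤ)) X).filter (fun t => D.eval t ≠ 0 ∧
    ENat.card (ShaTor (WW r s (D.eval t)) 2) < ((⌈(Real.log X) ^ c⌉₊ : ℕ) : ℕ∞))

lemma Sep.ne {D : ℤ[X]} (hD : Sep D) : D ≠ 0 := by
  rintro rfl
  obtain ⟨N, hN, A, B, h⟩ := hD
  rw [derivative_zero, mul_zero, mul_zero, add_zero] at h
  exact hN (C_eq_zero.1 h.symm)

/-- the eighth root -/
noncomputable def rt8 (X : ℕ) : ℕ := Nat.sqrt (Nat.sqrt (Nat.sqrt X))

lemma rt8_le (X : ℕ) : (rt8 X) ^ 8 ≤ X := by
  have h1 := Nat.sqrt_le' X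
  have h2 := Nat.sqrt_le' (Nat.sqrt X)
  have h3 := Nat.sqrt_le' (Nat.sqrt (Nat.sqrt X))
  unfold rt8
  calc (Nat.sqrt (Nat.sqrt (Nat.sqrt X))) ^ 8 = ((Nat.sqrt (Nat.sqrt (Nat.sqrt X))) ^ 2) ^ 4 := by
        rw [← pow_mul]
    _ ≤ (Nat.sqrt (Nat.sqrt X)) ^ 4 := Nat.pow_le_pow_left h3 4
    _ = ((Nat.sqrt (Nat.sqrt X)) ^ 2) ^ 2 := by rw [← pow_mul]
    _ ≤ (Nat.sqrt X) ^ 2 := Nat.pow_le_pow_left h2 2
    _ ≤ X := h1

lemma lt_rt8 (X : ℕ) : X < (rt8 X + 1) ^ 8 := by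
  have h1 := Nat.lt_succ_sqrt' X
  have h2 := Nat.lt_succ_sqrt' (Nat.sqrt X)
  have h3 := Nat.lt_succ_sqrt' (Nat.sqrt (Nat.sqrt X))
  unfold rt8
  have h2' : Nat.sqrt X + 1 ≤ (Nat.sqrt (Nat.sqrt X) + 1) ^ 2 := h2
  have h3' : Nat.sqrt (Nat.sqrt X) + 1 ≤ (Nat.sqrt (Nat.sqrt (Nat.sqrt X)) + 1) ^ 2 := h3
  calc X < (Nat.sqrt X + 1) ^ 2 := h1
    _ ≤ ((Nat.sqrt (Nat.sqrt X) + 1) ^ 2) ^ 2 := Nat.pow_le_pow_left h2' 2
    _ ≤ (((Nat.sqrt (Nat.sqrt (Nat.sqrt X)) + 1) ^ 2) ^ 2) ^ 2 :=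
        Nat.pow_le_pow_left (Nat.pow_le_pow_left h3' 2) 2
    _ = _ := by rw [← pow_mul, ← pow_mul]

lemma rt8_tendsto : Tendsto rt8 atTop atTop := by
  rw [tendsto_atTop]
  intro b
  filter_upwards [eventually_ge_atTop (b ^ 8)] with X hX
  by_contra h
  push Not at h
  have h1 := lt_rt8 X
  have h2 : (rt8 X + 1) ^ 8 ≤ b ^ 8 := Nat.pow_le_pow_left h 8
  omega

lemma succ_le_sq {y : ℕ} (h : 3 ≤ y) : y + 1 ≤ y ^ 2 := by nlinarith

lemma SS_nonneg (f : ℤ[X]) (P : Finset ℕ) : 0 ≤ SS f P := sum_nonneg fun p _ => by positivity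

open scoped Classical in
theorem asym {r s : ℤ} (hr : r ≠ 0) (hs : s ≠ 0) (hrs : r ≠ s) {D : ℤ[X]} (hD : Sep D)
    (hd : 0 < D.natDegree) {κ : ℝ} (hκ : 0 < κ)
    (hM : ∃ C : ℝ, ∀ y : ℕ, 3 ≤ y → κ * Real.log (Real.log y) - C ≤ SS D (PM (r * s) y))
    {ε : ℝ} (hε : 0 < ε) {δ : ℝ} (hδ : 0 < δ) :
    ∀ᶠ X : ℕ in atTop, ((Bad r s D (κ * Real.log 2 - ε) X).card : ℝ) ≤ δ * X := by
  obtain ⟨z1, -, -, hPg, -, -⟩ := pg_wt hD hd
  obtain ⟨K, hK1, hK⟩ := Pool.Agent.H474R2.GE.eval_bound D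
  obtain ⟨C0, hC0⟩ := Pool.Agent.U214.PT.all_DQ Pool.Agent.U214.PT.qq_QB (Sep.ne hD) hr hs hrs 1
  obtain ⟨CM, hCM⟩ := hM
  obtain ⟨d, hdd⟩ : ∃ d, d = D.natDegree := ⟨_, rfl⟩
  rw [← hdd] at hPg hK hd
  -- the parameters
  obtain ⟨z2, hz2⟩ := exists_nat_ge (12 * d / δ)
  obtain ⟨T, hT⟩ := exists_nat_ge (4 * C0 / δ + 1)
  set z : ℕ := z1 + z2 + 2 + r.natAbs + s.natAbs with hz
  have hzp : ∀ p : ℕ, p.Prime → z < p → p ≠ 2 ∧ ¬ (p : ℤ) ∣ r ∧ ¬ (p : ℤ) ∣ s ∧
      ¬ (p : ℤ) ∣ r - s := by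
    intro p hp hzp
    have hnd : ∀ m : ℤ, m ≠ 0 → m.natAbs ≤ r.natAbs + s.natAbs → ¬ (p : ℤ) ∣ m := by
      intro m hm hle h
      have := Nat.le_of_dvd (Int.natAbs_pos.2 hm) (Int.natCast_dvd.1 h)
      omega
    exact ⟨by omega, hnd r hr (by omega), hnd s hs (by omega),
      hnd (r - s) (sub_ne_zero.2 hrs) (Int.natAbs_sub_le r s)⟩
  have hz0 : 0 < z := by omega
  have hzr : (12 * d / δ : ℝ) ≤ z := hz2.trans (by exact_mod_cast (by omega : z2 ≤ z))
  have hTp : (0 : ℝ) < T ∧ 4 * C0 / δ ≤ T ∨ (0 : ℝ) < T := by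
    by_cases h : 0 ≤ C0
    · left
      have h1 : 0 ≤ 4 * C0 / δ := by positivity
      exact ⟨by linarith, by linarith⟩
    · exfalso
      push Not at h
      have h1 := hC0 1 le_rfl
      have h2 : 0 ≤ ∑ t ∈ Icc (-((1 : ℕ) : ℤ)) (1 : ℕ),
          (qq (r * D.eval t) (s * D.eval t) : ℝ) ^ 1 := sum_nonneg fun t _ => by positivity
      have h3 : ∑ t ∈ Icc (-((1 : ℕ) : ℤ)) (1 : ℕ),
          (qq (r * D.eval t) (s * D.eval t) : ℝ) ^ 1 ≤ C0 * ((1 : ℕ) : ℝ) := h1
      push_cast at h3 h2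
      linarith
  have hC00 : 0 ≤ C0 := by
    have h1 := hC0 1 le_rfl
    have h2 : 0 ≤ ∑ t ∈ Icc (-((1 : ℕ) : ℤ)) (1 : ℕ),
        (qq (r * D.eval t) (s * D.eval t) : ℝ) ^ 1 := sum_nonneg fun t _ => by positivity
    have h3 : ∑ t ∈ Icc (-((1 : ℕ) : ℤ)) (1 : ℕ),
        (qq (r * D.eval t) (s * D.eval t) : ℝ) ^ 1 ≤ C0 * ((1 : ℕ) : ℝ) := h1
    push_cast at h3 h2
    linarith
  have hT0 : (0 : ℝ) < T := by
    have h1 : 0 ≤ 4 * C0 / δ := by positivity
    linarith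
  have hTC : C0 / T ≤ δ / 4 := by
    rw [div_le_iff₀ hT0]
    have h1 : 4 * C0 / δ ≤ T := by linarith
    rw [div_le_iff₀ hδ] at h1
    linarith
  have hl2 : 0 < Real.log 2 := Real.log_pos (by norm_num)
  set η : ℝ := ε / (2 * (κ * Real.log 2 + ε)) with hη
  have hη0 : 0 < η := by positivity
  have hη1 : η < 1 := by
    rw [hη, div_lt_one (by positivity)]
    have := mul_pos hκ hl2
    linarith
  set a1 : ℝ := (1 - η) * κ * Real.log 2 with ha1
  have ha10 : 0 < a1 := mul_pos (mul_pos (by linarith) hκ) hl2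
  set c : ℝ := κ * Real.log 2 - ε with hc
  have hca : c < a1 := by
    have h1 : η * (κ * Real.log 2) < ε := by
      rw [hη, div_mul_eq_mul_div, div_lt_iff₀ (by positivity)]
      have := mul_pos hκ hl2
      exact mul_lt_mul_of_pos_left (by linarith) hε
    rw [hc, ha1]
    linarith
  set c' : ℝ := max c 0 with hc'
  have hc'0 : 0 ≤ c' := le_max_right _ _
  have hca' : c' < a1 := max_lt hca ha10
  set C1 : ℝ := CM + SS D (PM (r * s) z) with hC1
  set S : ℕ → ℝ := fun y => SS D (PM (r * s) y \ PM (r * s) z) with hS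
  have hSl : ∀ y : ℕ, 3 ≤ y → κ * Real.log (Real.log y) - C1 ≤ S y := by
    intro y hy
    have h1 := hCM y hy
    have h2 : SS D (PM (r * s) y) ≤ S y + SS D (PM (r * s) z) := by
      rw [hS]
      unfold SS
      have h3 : ∑ p ∈ PM (r * s) y, (rho D p : ℝ) / p ≤
          ∑ p ∈ (PM (r * s) y \ PM (r * s) z) ∪ PM (r * s) z, (rho D p : ℝ) / p := by
        refine sum_le_sum_of_subset_of_nonneg ?_ fun p _ _ => by positivity
        rw [sdiff_union_self_eq_union]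
        exact subset_union_left
      rw [sum_union sdiff_disjoint] at h3
      exact h3
    rw [hC1]
    linarith
  -- the constant
  set A : ℝ := 24 * 2 ^ (z + 8 * (d + 1)) * T with hA
  have hA0 : 0 < A := by positivity
  set A' : ℝ := A * (2 : ℝ) ^ ((1 - η) * C1) with hA'
  have hA'0 : 0 < A' := by positivity
  have hlogt : Tendsto (fun y : ℕ => Real.log y) atTop atTop :=
    Real.tendsto_log_atTop.comp tendsto_natCast_atTop_atTop
  have hSt : Tendsto S atTop atTop := by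
    have h1 : Tendsto (fun y : ℕ => κ * Real.log (Real.log y) - C1) atTop atTop := by
      apply tendsto_atTop_add_const_right
      exact (Real.tendsto_log_atTop.comp hlogt).const_mul_atTop hκ
    refine tendsto_atTop_mono' _ ?_ h1
    filter_upwards [eventually_ge_atTop 3] with y hy
    exact hSl y hy
  -- the eventual inequalities
  have ev1 : ∀ᶠ y : ℕ in atTop, 1 ≤ S y ∧ 24 / (δ * η ^ 2) ≤ S y :=
    (hSt.eventually_ge_atTop 1).and (hSt.eventually_ge_atTop _)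
  have ev2 : ∀ᶠ y : ℕ in atTop, 32 * (d : ℝ) ^ 2 / (η ^ 2 * δ) ≤ y ∧ 8 * d / δ ≤ (y : ℝ) ∧
      K ≤ (y : ℝ) := by
    have h1 : Tendsto (fun y : ℕ => (y : ℝ)) atTop atTop := tendsto_natCast_atTop_atTop
    exact (h1.eventually_ge_atTop _).and ((h1.eventually_ge_atTop _).and
      (h1.eventually_ge_atTop _))
  have ev3 : ∀ᶠ y : ℕ in atTop, A' * (1 + (16 * Real.log y) ^ c') < (Real.log y) ^ a1 := by
    have h1 : Tendsto (fun y : ℕ => (Real.log y) ^ (a1 - c')) atTop atTop :=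
      (tendsto_rpow_atTop (by linarith)).comp hlogt
    filter_upwards [h1.eventually_gt_atTop (A' * (1 + (16 : ℝ) ^ c')),
      hlogt.eventually_ge_atTop 1] with y h2 h3
    have h4 : (Real.log y) ^ a1 = (Real.log y) ^ (a1 - c') * (Real.log y) ^ c' := by
      rw [← Real.rpow_add (by linarith)]
      congr 1
      ring
    have h5 : (1 : ℝ) ≤ (Real.log y) ^ c' := Real.one_le_rpow h3 hc'0
    have h6 : (16 * Real.log y) ^ c' = (16 : ℝ) ^ c' * (Real.log y) ^ c' :=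
      Real.mul_rpow (by norm_num) (by linarith)
    rw [h4, h6]
    have h7 : (0 : ℝ) < (16 : ℝ) ^ c' := by positivity
    calc A' * (1 + (16 : ℝ) ^ c' * (Real.log y) ^ c')
        ≤ A' * ((1 + (16 : ℝ) ^ c') * (Real.log y) ^ c') := by
          apply mul_le_mul_of_nonneg_left _ hA'0.le
          rw [add_mul, one_mul]
          linarith
      _ = (A' * (1 + (16 : ℝ) ^ c')) * (Real.log y) ^ c' := by ring
      _ < _ := mul_lt_mul_of_pos_right h2 (by linarith)
  filter_upwards [rt8_tendsto.eventually ev1, rt8_tendsto.eventually ev2,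
    rt8_tendsto.eventually ev3, rt8_tendsto.eventually (eventually_ge_atTop (z + 3)),
    eventually_ge_atTop 3] with X e1 e2 e3 e4 e5
  obtain ⟨y, hy⟩ : ∃ y, y = rt8 X := ⟨_, rfl⟩
  rw [← hy] at e1 e2 e3 e4
  have hyX : y ^ 8 ≤ X := by rw [hy]; exact rt8_le X
  have hXy : X < (y + 1) ^ 8 := by rw [hy]; exact lt_rt8 X
  have hXr : (1 : ℝ) ≤ X := by exact_mod_cast (by omega : 1 ≤ X)
  have hyr : (1 : ℝ) ≤ y := by exact_mod_cast (by omega : 1 ≤ y)
  have hyXr : (y : ℝ) ^ 8 ≤ X := by exact_mod_cast hyX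
  have hAB : -(X : ℤ) - 1 ≤ X := by omega
  have hIoc : Ioc (-(X : ℤ) - 1) X = Icc (-(X : ℤ)) X := by
    ext t
    rw [mem_Ioc, mem_Icc]
    omega
  have hLen : (((X : ℤ) : ℝ) - ((-(X : ℤ) - 1 : ℤ) : ℝ)) ≤ 3 * X := by
    push_cast
    linarith
  have hLen0 : 0 ≤ (((X : ℤ) : ℝ) - ((-(X : ℤ) - 1 : ℤ) : ℝ)) := by
    push_cast
    linarith
  -- the three exceptional sets
  set E1 := (Icc (-(X : ℤ)) X).filter (fun t =>
    (T : ℝ) < (qq (r * D.eval t) (s * D.eval t) : ℝ)) with hE1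
  set E2 := (Ioc (-(X : ℤ) - 1) X).filter (fun t : ℤ => ∃ p : ℕ, p.Prime ∧ z < p ∧ p ≤ y ∧
      (p : ℤ) ^ 2 ∣ D.eval t) with hE2
  set E3 := (Ioc (-(X : ℤ) - 1) X).filter (fun t =>
    (om D (PM (r * s) y \ PM (r * s) z) t : ℝ) ≤
      (1 - η) * SS D (PM (r * s) y \ PM (r * s) z)) with hE3
  have c1 : (E1.card : ℝ) ≤ δ / 4 * X := by
    have h1 := hC0 X (by omega)
    have h2 : (E1.card : ℝ) * T ≤ C0 * X := by
      refine le_trans ?_ h1
      rw [← nsmul_eq_mul, ← sum_const]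
      refine (sum_le_sum fun t ht => ?_).trans
        (sum_le_sum_of_subset_of_nonneg (filter_subset _ _) fun t _ _ => by positivity)
      rw [pow_one]
      exact (mem_filter.1 ht).2.le
    rw [← le_div_iff₀ hT0] at h2
    refine h2.trans ?_
    rw [mul_div_right_comm]
    exact mul_le_mul_of_nonneg_right hTC (by positivity)
  have c2 : (E2.card : ℝ) ≤ 3 * δ / 8 * X := by
    have h1 := sq_count D (y := y) hPg (by omega : z1 ≤ z) hz0 (by omega) (-(X : ℤ) - 1) X hAB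
    refine h1.trans ?_
    have hz0r : (0 : ℝ) < z := by exact_mod_cast hz0
    have h2 : (d : ℝ) * ((((X : ℤ) : ℝ) - ((-(X : ℤ) - 1 : ℤ) : ℝ)) / z) ≤ δ / 4 * X := by
      rw [mul_div_assoc', div_le_iff₀ hz0r]
      rw [div_le_iff₀ hδ] at hzr
      have h3 : (d : ℝ) * (((X : ℤ) : ℝ) - ((-(X : ℤ) - 1 : ℤ) : ℝ)) ≤ d * (3 * X) :=
        mul_le_mul_of_nonneg_left hLen (Nat.cast_nonneg _)
      have h4 : (12 * (d : ℝ)) * X ≤ (z * δ) * X := mul_le_mul_of_nonneg_right hzr (by linarith)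
      linarith
    have h3 : (d : ℝ) * y ≤ δ / 8 * X := by
      have h4 := e2.2.1
      rw [div_le_iff₀ hδ] at h4
      have h5 : (y : ℝ) ^ 2 ≤ X := by
        refine le_trans ?_ hyXr
        exact pow_le_pow_right₀ hyr (by norm_num)
      have h6 : 8 * (d : ℝ) * y ≤ y * δ * y := mul_le_mul_of_nonneg_right h4 (by linarith)
      have h7 : δ / 8 * (y : ℝ) ^ 2 ≤ δ / 8 * X := mul_le_mul_of_nonneg_left h5 (by linarith)
      linarith
    have h4 : (d : ℝ) * ((((X : ℤ) : ℝ) - ((-(X : ℤ) - 1 : ℤ) : ℝ)) / z + y) =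
        (d : ℝ) * ((((X : ℤ) : ℝ) - ((-(X : ℤ) - 1 : ℤ) : ℝ)) / z) + d * y := by ring
    rw [h4]
    linarith
  have c3 : (E3.card : ℝ) ≤ δ / 4 * X := by
    have hSpos : 0 < SS D (PM (r * s) y \ PM (r * s) z) := lt_of_lt_of_le one_pos e1.1
    have h1 := cheb D (PM (r * s) y \ PM (r * s) z) (fun p hp => by
      unfold PM at hp
      rw [Finset.mem_sdiff, mem_filter] at hp
      exact hp.1.2.1) (-(X : ℤ) - 1) X hAB η hη0 hSpos
    refine h1.trans ?_
    set SY := SS D (PM (r * s) y \ PM (r * s) z) with hSY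
    have hSY1 : (1 : ℝ) ≤ SY := e1.1
    have hSY2 : 24 / (δ * η ^ 2) ≤ SY := e1.2
    have hη2 : 0 < η ^ 2 := by positivity
    -- the sum of the numbers of classes
    have hR : RR D (PM (r * s) y \ PM (r * s) z) ≤ d * y := by
      unfold RR
      calc ∑ p ∈ PM (r * s) y \ PM (r * s) z, (rho D p : ℝ)
          ≤ ∑ p ∈ PM (r * s) y \ PM (r * s) z, (d : ℝ) := by
            refine sum_le_sum fun p hp => ?_
            unfold PM at hp
            rw [Finset.mem_sdiff, mem_filter, mem_filter, mem_Icc, mem_Icc] at hp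
            have hpz : z < p := by
              by_contra hcon
              exact hp.2 ⟨⟨hp.1.1.1, not_lt.1 hcon⟩, hp.1.2⟩
            exact_mod_cast hPg.rho p hp.1.2.1 (by omega)
        _ = (PM (r * s) y \ PM (r * s) z).card * d := by rw [sum_const, nsmul_eq_mul]
        _ ≤ d * y := by
            rw [mul_comm]
            apply mul_le_mul_of_nonneg_left _ (Nat.cast_nonneg _)
            have h2 : (PM (r * s) y \ PM (r * s) z).card ≤ y := by
              have h3 : PM (r * s) y \ PM (r * s) z ⊆ Icc 1 y :=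
                (sdiff_subset).trans (filter_subset _ _)
              have h4 := card_le_card h3
              rwa [Nat.card_Icc, Nat.add_sub_cancel] at h4
            exact_mod_cast h2
    have hR0 : 0 ≤ RR D (PM (r * s) y \ PM (r * s) z) := sum_nonneg fun p _ => Nat.cast_nonneg _
    have h2 : (((X : ℤ) : ℝ) - ((-(X : ℤ) - 1 : ℤ) : ℝ)) / SY / η ^ 2 ≤ δ / 8 * X := by
      rw [div_div, div_le_iff₀ (by positivity)]
      rw [div_le_iff₀ (by positivity)] at hSY2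
      have h3 : 24 * (X : ℝ) ≤ SY * (δ * η ^ 2) * X := mul_le_mul_of_nonneg_right hSY2 (by linarith)
      have h4 : δ / 8 * X * (SY * η ^ 2) = (SY * (δ * η ^ 2) * X) / 8 := by ring
      rw [h4]
      linarith
    have h3 : 4 * (RR D (PM (r * s) y \ PM (r * s) z)) ^ 2 / SY ^ 2 / η ^ 2 ≤ δ / 8 * X := by
      rw [div_div, div_le_iff₀ (by positivity)]
      have h4 : (RR D (PM (r * s) y \ PM (r * s) z)) ^ 2 ≤ (d * y) ^ 2 :=
        pow_le_pow_left₀ hR0 hR 2
      have h5 := e2.1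
      rw [div_le_iff₀ (by positivity)] at h5
      have h6 : (1 : ℝ) ≤ SY ^ 2 := one_le_pow₀ hSY1
      have h7 : (y : ℝ) ^ 3 ≤ X := by
        refine le_trans ?_ hyXr
        exact pow_le_pow_right₀ hyr (by norm_num)
      have h8 : 32 * (d : ℝ) ^ 2 * y ^ 2 ≤ (y * (η ^ 2 * δ)) * y ^ 2 :=
        mul_le_mul_of_nonneg_right h5 (by positivity)
      have h9 : (y : ℝ) * (η ^ 2 * δ) * y ^ 2 ≤ X * (η ^ 2 * δ) := by
        have : (y : ℝ) * (η ^ 2 * δ) * y ^ 2 = y ^ 3 * (η ^ 2 * δ) := by ring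
        rw [this]
        exact mul_le_mul_of_nonneg_right h7 (by positivity)
      have h10 : X * (η ^ 2 * δ) ≤ X * (η ^ 2 * δ) * SY ^ 2 :=
        le_mul_of_one_le_right (by positivity) h6
      linarith
    have h4 : ((((X : ℤ) : ℝ) - ((-(X : ℤ) - 1 : ℤ) : ℝ)) / SY +
        4 * (RR D (PM (r * s) y \ PM (r * s) z)) ^ 2 / SY ^ 2) / η ^ 2 =
        (((X : ℤ) : ℝ) - ((-(X : ℤ) - 1 : ℤ) : ℝ)) / SY / η ^ 2 +
        4 * (RR D (PM (r * s) y \ PM (r * s) z)) ^ 2 / SY ^ 2 / η ^ 2 := by ring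
    rw [h4]
    linarith
  -- the inclusion
  have hsub : Bad r s D c X ⊆ E1 ∪ (E2 ∪ E3) := by
    intro t ht
    unfold Bad at ht
    rw [mem_filter] at ht
    obtain ⟨htI, htD, htS⟩ := ht
    rw [mem_union, mem_union]
    by_contra hcon
    push Not at hcon
    obtain ⟨n1, n2, n3⟩ := hcon
    have htI' : t ∈ Ioc (-(X : ℤ) - 1) X := by rw [hIoc]; exact htI
    rw [hE1, mem_filter, not_and] at n1
    rw [hE2, mem_filter, not_and] at n2
    rw [hE3, mem_filter, not_and] at n3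
    have q1 := not_lt.1 (n1 htI)
    have q2 := n2 htI'
    have q3 := not_le.1 (n3 htI')
    have hF : (D.eval t).natAbs ≤ X ^ (d + 1) := by
      have h1 := hK t X hXr (by
        rw [mem_Icc] at htI
        rw [abs_le]
        constructor
        · exact_mod_cast htI.1
        · exact_mod_cast htI.2)
      have h2 : K ≤ X := by
        refine e2.2.2.trans (le_trans ?_ hyXr)
        exact le_self_pow₀ hyr (by norm_num)
      have h3 : (((D.eval t).natAbs : ℕ) : ℝ) ≤ (X : ℝ) ^ (d + 1) := by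
        rw [Nat.cast_natAbs, Int.cast_abs]
        refine h1.trans ?_
        rw [pow_succ, mul_comm ((X : ℝ) ^ d)]
        exact mul_le_mul_of_nonneg_right h2 (by positivity)
      exact_mod_cast h3
    have h1 := one hr hs hrs hzp htD hF (by omega) hXy q2
    -- `Ш[2]` is finite
    obtain ⟨n, hn⟩ : ∃ n : ℕ, ENat.card (ShaTor (WW r s (D.eval t)) 2) = n :=
      ENat.ne_top_iff_exists.1 (ne_top_of_lt htS) |>.imp fun _ h => h.symm
    rw [hn] at h1 htS
    have h2 : n < ⌈(Real.log X) ^ c⌉₊ := by exact_mod_cast htS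
    have h3 : (n : ℝ) < (Real.log X) ^ c := Nat.lt_ceil.1 h2
    have h4 : 2 ^ (om D (PM (r * s) y \ PM (r * s) z) t) ≤
        24 * 2 ^ (z + 8 * (d + 1)) * 2 ^ rk (E (r * D.eval t) (s * D.eval t)) * n := by
      exact_mod_cast h1
    have hrk : (2 : ℝ) ^ rk (E (r * D.eval t) (s * D.eval t)) ≤ T := by
      refine le_trans ?_ q1
      exact_mod_cast rk_le (mul_ne_zero hr htD) (mul_ne_zero hs htD)
        (fun e => hrs (mul_right_cancel₀ htD e))
    have h5 : (2 : ℝ) ^ (om D (PM (r * s) y \ PM (r * s) z) t) ≤ A * n := by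
      have h6 : (2 : ℝ) ^ (om D (PM (r * s) y \ PM (r * s) z) t) ≤
        24 * 2 ^ (z + 8 * (d + 1)) * 2 ^ rk (E (r * D.eval t) (s * D.eval t)) * n := by
        exact_mod_cast h4
      refine h6.trans ?_
      rw [hA]
      gcongr
    -- the logarithms
    have hlogy : 1 ≤ Real.log y := by
      by_contra hcon
      push Not at hcon
      have h7 : (3 : ℝ) ≤ y := by exact_mod_cast (by omega : 3 ≤ y)
      have h8 : Real.log y ≥ Real.log 3 := Real.log_le_log (by norm_num) h7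
      have h9 : (1 : ℝ) ≤ Real.log 3 := by
        rw [Real.le_log_iff_exp_le (by norm_num)]
        exact Real.exp_one_lt_d9.le.trans (by norm_num)
      linarith
    have hlogX1 : 1 ≤ Real.log X := by
      refine hlogy.trans (Real.log_le_log (by linarith) ?_)
      exact le_trans (le_self_pow₀ hyr (by norm_num)) hyXr
    have hlogX : Real.log X ≤ 16 * Real.log y := by
      have h7 : (X : ℝ) ≤ ((y : ℝ) ^ 2) ^ 8 := by
        have h8 : X ≤ (y ^ 2) ^ 8 := by
          exact hXy.le.trans (Nat.pow_le_pow_left (succ_le_sq (by omega)) 8)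
        exact_mod_cast h8
      have h8 := Real.log_le_log (by linarith) h7
      rw [← pow_mul, Real.log_pow] at h8
      push_cast at h8
      linarith
    have h6 : (Real.log X) ^ c ≤ 1 + (16 * Real.log y) ^ c' := by
      have h7 : (Real.log X) ^ c ≤ (Real.log X) ^ c' :=
        Real.rpow_le_rpow_of_exponent_le hlogX1 (le_max_left _ _)
      have h8 : (Real.log X) ^ c' ≤ (16 * Real.log y) ^ c' :=
        Real.rpow_le_rpow (by linarith) hlogX hc'0
      linarith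
    have h7 : A * n < A * (1 + (16 * Real.log y) ^ c') :=
      mul_lt_mul_of_pos_left (lt_of_lt_of_le h3 h6) hA0
    -- the lower bound
    have h8 : (2 : ℝ) ^ ((1 - η) * (κ * Real.log (Real.log y) - C1)) ≤
        (2 : ℝ) ^ (om D (PM (r * s) y \ PM (r * s) z) t) := by
      rw [← Real.rpow_natCast 2 (om D (PM (r * s) y \ PM (r * s) z) t)]
      apply Real.rpow_le_rpow_of_exponent_le (by norm_num)
      refine le_trans ?_ q3.le
      exact mul_le_mul_of_nonneg_left (hSl y (by omega)) (by linarith)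
    have h9 : (2 : ℝ) ^ ((1 - η) * (κ * Real.log (Real.log y) - C1)) =
        (Real.log y) ^ a1 / (2 : ℝ) ^ ((1 - η) * C1) := by
      rw [mul_sub, Real.rpow_sub (by norm_num)]
      congr 1
      rw [Real.rpow_def_of_pos (by norm_num : (0 : ℝ) < 2),
        Real.rpow_def_of_pos (by linarith : (0 : ℝ) < Real.log y)]
      congr 1
      rw [ha1]
      ring
    rw [h9] at h8
    have h10 : (0 : ℝ) < (2 : ℝ) ^ ((1 - η) * C1) := by positivity
    have h11 := (h8.trans h5).trans_lt h7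
    rw [div_lt_iff₀ h10] at h11
    have h12 : A * (1 + (16 * Real.log y) ^ c') * (2 : ℝ) ^ ((1 - η) * C1) =
        A' * (1 + (16 * Real.log y) ^ c') := by
      rw [hA']
      ring
    rw [h12] at h11
    exact absurd h11 (not_lt.2 e3.le)
  have h1 : ((Bad r s D c X).card : ℝ) ≤ E1.card + (E2.card + E3.card) := by
    have h2 := card_le_card hsub
    have h3 := card_union_le E1 (E2 ∪ E3)
    have h4 := card_union_le E2 E3
    have h5 : (Bad r s D c X).card ≤ E1.card + (E2.card + E3.card) := by omega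
    exact_mod_cast h5
  have h2 : (0 : ℝ) ≤ δ * X := by positivity
  linarith

end Pool.Agent.U409.LS
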