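import Pool.Agent.U409.LS.Mert
import Pool.Agent.U409.LS.Asym
import Pool.Agent.U409.SH.Inv

/-!
# Arbitrary polynomials
-/

set_option autoImplicit false

namespace Pool.Agent.U409.LS

open Polynomial Finset Filter
open Pool.Agent.H474R2.PG (rho)
open Pool.Agent.U214.PT (Sep dvd_of_sep sep_sq)
open Pool.Agent.TH841.SH.D (ShaTor rk)

/-- the roots of the different factors are different -/
theorem rho_fac {G : ℤ[X]} (hG : Sep G) (S : Finset ℤ[X]) (hS : ∀ f ∈ S, Irreducible f)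
    (hSd : ∀ f ∈ S, f ∣ G) (hSn : ∀ f ∈ S, ∀ g ∈ S, f ≠ g → ¬ Associated f g) :
    ∃ B : ℕ, ∀ p : ℕ, p.Prime → B < p → ∑ f ∈ S, rho f p ≤ rho G p := by
  classical
  obtain ⟨N, hN, U, V, hUV⟩ := hG
  refine ⟨N.natAbs, fun p hp hB => ?_⟩
  have hNp : ¬ (p : ℤ) ∣ N := by
    intro h1
    have := Nat.le_of_dvd (Int.natAbs_pos.2 hN) (Int.natCast_dvd.1 h1)
    omega
  have hdis : ∀ f ∈ S, ∀ g ∈ S, f ≠ g → Disjoint
      ((range p).filter (fun a : ℕ => (p : ℤ) ∣ f.eval (a : ℤ)))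
      ((range p).filter (fun a : ℕ => (p : ℤ) ∣ g.eval (a : ℤ))) := by
    intro f hf g hg hfg
    rw [disjoint_left]
    intro a ha hb
    have h1 := (mem_filter.1 ha).2
    have h2 := (mem_filter.1 hb).2
    obtain ⟨k, hk⟩ := hSd f hf
    have h3 : g ∣ f * k := hk ▸ hSd g hg
    rcases (irreducible_iff_prime.1 (hS g hg)).dvd_or_dvd h3 with h4 | h4
    · exact hSn g hg f hf (Ne.symm hfg) ((hS g hg).associated_of_dvd (hS f hf) h4)
    · obtain ⟨l, hl⟩ := h4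
      apply hNp
      apply dvd_of_sep hUV (t := (a : ℤ))
      · rw [hk, eval_mul]
        exact h1.mul_right _
      · rw [hk, hl, derivative_mul, derivative_mul, eval_add, eval_mul, eval_mul, eval_mul]
        exact dvd_add ((h2.mul_right _).mul_left _) (h1.mul_right _)
  have h1 : ∑ f ∈ S, rho f p =
      (S.biUnion (fun f => (range p).filter (fun a : ℕ => (p : ℤ) ∣ f.eval (a : ℤ)))).card := by
    rw [card_biUnion hdis]
    rfl
  rw [h1]
  refine card_le_card fun a ha => ?_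
  obtain ⟨f, hf, haf⟩ := mem_biUnion.1 ha
  rw [mem_filter] at haf
  refine mem_filter.2 ⟨haf.1, haf.2.trans ?_⟩
  obtain ⟨k, hk⟩ := hSd f hf
  rw [hk, eval_mul]
  exact dvd_mul_right _ _

/-- the lower bound for the sums over the non-residues -/
theorem mert_fac {n : ℤ} (hn : ∀ q : ℚ, q ^ 2 ≠ n) {G : ℤ[X]} (hG : Sep G) (S : Finset ℤ[X])
    (hS : ∀ f ∈ S, Irreducible f) (hSd : ∀ f ∈ S, f ∣ G)
    (hSn : ∀ f ∈ S, ∀ g ∈ S, f ≠ g → ¬ Associated f g)
    (hSi : ∀ f ∈ S, 0 < f.natDegree ∧ Irreducible (f.map (Int.castRingHom (QF n)))) :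
    ∃ C : ℝ, ∀ y : ℕ, 3 ≤ y →
      (S.card : ℝ) / 2 * Real.log (Real.log y) - C ≤ SS G (PM n y) := by
  classical
  obtain ⟨B, hB⟩ := rho_fac hG S hS hSd hSn
  have h1 : ∀ f : ℤ[X], ∃ C : ℝ, f ∈ S → ∀ y : ℕ, 3 ≤ y →
      1 / 2 * Real.log (Real.log y) - C ≤ SS f (PM n y) := by
    intro f
    by_cases hf : f ∈ S
    · obtain ⟨C, hC⟩ := mert_minus hn (hS f hf) (hSi f hf).2 (hSi f hf).1
      exact ⟨C, fun _ => hC⟩
    · exact ⟨0, fun h => absurd h hf⟩
  choose C hC using h1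
  set T0 : ℝ := ∑ f ∈ S, ∑ p ∈ Icc 1 B, (rho f p : ℝ) / p with hT0
  refine ⟨∑ f ∈ S, C f + T0, fun y hy => ?_⟩
  have h2 : ∑ f ∈ S, (1 / 2 * Real.log (Real.log y) - C f) ≤ ∑ f ∈ S, SS f (PM n y) :=
    sum_le_sum fun f hf => hC f hf y hy
  rw [sum_sub_distrib, sum_const, nsmul_eq_mul] at h2
  have h3 : ∑ f ∈ S, SS f (PM n y) ≤ SS G (PM n y) + T0 := by
    unfold SS
    rw [sum_comm]
    have h4 : ∀ p ∈ PM n y, ∑ f ∈ S, (rho f p : ℝ) / p ≤ (rho G p : ℝ) / p +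
        (if p ∈ Icc 1 B then ∑ f ∈ S, (rho f p : ℝ) / p else 0) := by
      intro p hp
      have hpp : p.Prime := by
        unfold PM at hp
        exact (mem_filter.1 hp).2.1
      by_cases h5 : p ∈ Icc 1 B
      · rw [if_pos h5]
        have : (0 : ℝ) ≤ (rho G p : ℝ) / p := by positivity
        linarith
      · rw [if_neg h5, add_zero, ← sum_div]
        apply div_le_div_of_nonneg_right _ (Nat.cast_nonneg _)
        rw [mem_Icc, not_and] at h5
        have h6 := hB p hpp (not_le.1 (h5 hpp.one_lt.le))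
        exact_mod_cast h6
    refine (sum_le_sum h4).trans ?_
    rw [sum_add_distrib, ← sum_filter]
    have h5 : (PM n y).filter (fun p => p ∈ Icc 1 B) ⊆ Icc 1 B := fun p hp => (mem_filter.1 hp).2
    have h6 := sum_le_sum_of_subset_of_nonneg h5
      (f := fun p => ∑ f ∈ S, (rho f p : ℝ) / p) (fun p _ _ => by positivity)
    have h7 : T0 = ∑ p ∈ Icc 1 B, ∑ f ∈ S, (rho f p : ℝ) / p := sum_comm
    rw [h7]
    exact add_le_add le_rfl h6
  linarith

/-- scaling by squares -/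
theorem scale {r s d u : ℤ} (hr : r ≠ 0) (hs : s ≠ 0) (hrs : r ≠ s) (hd : d ≠ 0) (hu : u ≠ 0) :
    ENat.card (ShaTor (WW r s (u ^ 2 * d)) 2) = ENat.card (ShaTor (WW r s d) 2) := by
  have h : Pool.Agent.Y700.VR (WW r s (u ^ 2 * d)) (WW r s d) (u : ℚ) 0 0 0 := by
    refine ⟨by exact_mod_cast hu, ?_, ?_, ?_, ?_, ?_⟩ <;> simp only [WW, Wc] <;>
      push_cast <;> ring
  have hD : (WW r s d).Δ ≠ 0 := by
    have e : (WW r s d).Δ = 256 * ((r : ℚ) * s * d ^ 2) * ((r - s) ^ 2 * d ^ 2) ^ 2 := by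
      simp only [WW, Wc, WeierstrassCurve.Δ, WeierstrassCurve.b₂,
        WeierstrassCurve.b₄, WeierstrassCurve.b₆, WeierstrassCurve.b₈]
      push_cast
      ring
    have h1 : (r : ℚ) ≠ 0 := by exact_mod_cast hr
    have h2 : (s : ℚ) ≠ 0 := by exact_mod_cast hs
    have h3 : (d : ℚ) ≠ 0 := by exact_mod_cast hd
    have h4 : (r : ℚ) - s ≠ 0 := sub_ne_zero.2 (by exact_mod_cast hrs)
    rw [e]
    positivity
  rw [ENat.card_congr (Pool.Agent.U409.SH.torEquiv _),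
    ENat.card_congr (Pool.Agent.U409.SH.torEquiv _)]
  exact ENat.card_congr (Pool.Agent.U409.SH.subEquiv h hD).symm

end Pool.Agent.U409.LS
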