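import Pool.Agent.U409.LS.Ker

/-!
# A lower bound for the 2-torsion of the Tate-Shafarevich group
-/

set_option autoImplicit false

namespace Pool.Agent.U409.LS

open Finset
open Pool.Agent.W262.SH (QB E)
open Pool.Agent.TH841.SH.D (ShaTor rk)

/-- `Ш[2]` of the quotient of `y² = x (x - r d) (x - s d)` by the point `(0, 0)` -/
theorem alg {r s d : ℤ} {G Bd : Finset ℕ} (h : Hyp r s d G Bd) :
    ((2 ^ (Gm r s G).card : ℕ) : ℕ∞) ≤ ((4 * 2 ^ Bd.card * (2 + 4 * 2 ^ rk (E (r * d) (s * d))) : ℕ)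
      : ℕ∞) * ENat.card (ShaTor (Wc (-(r * d + s * d)) ((r * d) * (s * d))) 2) := by
  obtain ⟨K, hK1, hK2, hK3⟩ := ker h
  have hr : r * d ≠ 0 := mul_ne_zero h.hr h.hd
  have hs : s * d ≠ 0 := mul_ne_zero h.hs h.hd
  have hrs : r * d ≠ s * d := fun e => h.hrs (mul_right_cancel₀ h.hd e)
  have h1 := classes hr hs hrs K hK1 (by
    intro c hc t ht
    obtain ⟨k, hk, hp, hR⟩ := hK2 c hc
    have hc0 := (hK1 c hc).ne_zero
    constructor
    · intro p _
      apply fs_loc _ hc0 ht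
      have h2 := (hp p).pt
      rw [← hk] at h2
      exact h2
    · apply fs_loc _ hc0 ht
      have h2 := hR.pt
      rw [← hk] at h2
      exact h2)
  calc ((2 ^ (Gm r s G).card : ℕ) : ℕ∞) ≤ ((4 * 2 ^ Bd.card * K.card : ℕ) : ℕ∞) := by
        exact_mod_cast hK3
    _ = ((4 * 2 ^ Bd.card : ℕ) : ℕ∞) * (K.card : ℕ∞) := by push_cast; rfl
    _ ≤ ((4 * 2 ^ Bd.card : ℕ) : ℕ∞) * (((2 + 4 * 2 ^ rk (E (r * d) (s * d)) : ℕ) : ℕ∞) *
          ENat.card (ShaTor (Wc (-(r * d + s * d)) ((r * d) * (s * d))) 2)) := by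
        gcongr
    _ = _ := by
        rw [← mul_assoc]
        congr 1

end Pool.Agent.U409.LS
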