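import Pool.Agent.H474R2.PG.Count

/-!
# The second moment of the number of prime divisors of the values of a polynomial
-/

set_option autoImplicit false

namespace Pool.Agent.U409.LS

open Polynomial Finset
open Pool.Agent.H474R2.PG (rho count_class)

open scoped Classical in
/-- the number of the primes of `P` that divide `f (t)` -/
noncomputable def om (f : ℤ[X]) (P : Finset ℕ) (t : ℤ) : ℕ :=
  (P.filter (fun p : ℕ => (p : ℤ) ∣ f.eval t)).card

/-- the sum of the densities -/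
noncomputable def SS (f : ℤ[X]) (P : Finset ℕ) : ℝ := ∑ p ∈ P, (rho f p : ℝ) / (p : ℝ)

/-- the sum of the numbers of the classes -/
noncomputable def RR (f : ℤ[X]) (P : Finset ℕ) : ℝ := ∑ p ∈ P, (rho f p : ℝ)

open scoped Classical in
lemma count_one (f : ℤ[X]) (A B : ℤ) (hAB : A ≤ B) {p : ℕ} (hp : p.Prime) :
    |(((Ioc A B).filter (fun t : ℤ => (p : ℤ) ∣ f.eval t)).card : ℝ) -
      ((B : ℝ) - A) * ((rho f p : ℝ) / p)| ≤ rho f p := by
  have h := count_class f A B hAB 1 le_rfl 0 {p} (by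
    intro q hq
    rw [mem_singleton] at hq
    subst hq
    exact ⟨hp, hp.one_lt.ne' ∘ Nat.dvd_one.1⟩) (fun _ => 0)
  simpa using h

open scoped Classical in
lemma count_two (f : ℤ[X]) (A B : ℤ) (hAB : A ≤ B) {p q : ℕ} (hp : p.Prime) (hq : q.Prime)
    (hpq : p ≠ q) :
    |(((Ioc A B).filter (fun t : ℤ => (p : ℤ) ∣ f.eval t ∧ (q : ℤ) ∣ f.eval t)).card : ℝ) -
      ((B : ℝ) - A) * (((rho f p : ℝ) / p) * ((rho f q : ℝ) / q))| ≤ rho f p * rho f q := by
  have h := count_class f A B hAB 1 le_rfl 0 {p, q} (by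
    intro l hl
    rw [mem_insert, mem_singleton] at hl
    rcases hl with rfl | rfl
    · exact ⟨hp, hp.one_lt.ne' ∘ Nat.dvd_one.1⟩
    · exact ⟨hq, hq.one_lt.ne' ∘ Nat.dvd_one.1⟩) (fun _ => 0)
  rw [prod_pair hpq, prod_pair hpq] at h
  simpa using h

/-- **the second moment** -/
theorem turan (f : ℤ[X]) (P : Finset ℕ) (hP : ∀ p ∈ P, p.Prime) (A B : ℤ) (hAB : A ≤ B) :
    ∑ t ∈ Ioc A B, ((om f P t : ℝ) - SS f P) ^ 2 ≤ ((B : ℝ) - A) * SS f P + 4 * (RR f P) ^ 2 := by
  classical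
  set L : ℝ := (B : ℝ) - A with hL
  have hL0 : 0 ≤ L := by
    rw [hL, sub_nonneg]
    exact_mod_cast hAB
  set I := Ioc A B with hI
  set S := SS f P with hS
  set R := RR f P with hR
  have hIc : (I.card : ℝ) = L := by
    rw [hI, Int.card_Ioc, hL]
    have h1 : ((B - A).toNat : ℤ) = B - A := Int.toNat_of_nonneg (sub_nonneg.2 hAB)
    have h2 : (((B - A).toNat : ℤ) : ℝ) = ((B - A : ℤ) : ℝ) := by rw [h1]
    push_cast at h2
    exact h2
  set ind : ℕ → ℤ → ℝ := fun p t => if (p : ℤ) ∣ f.eval t then 1 else 0 with hind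
  have hom : ∀ t, (om f P t : ℝ) = ∑ p ∈ P, ind p t := by
    intro t
    unfold om
    rw [card_filter]
    push_cast
    rfl
  have hc1 : ∀ p ∈ P, |∑ t ∈ I, ind p t - L * ((rho f p : ℝ) / p)| ≤ rho f p := by
    intro p hp
    have h := count_one f A B hAB (hP p hp)
    rw [card_filter] at h
    push_cast at h
    exact h
  have hc2 : ∀ p ∈ P, ∀ q ∈ P, p ≠ q → ∑ t ∈ I, ind p t * ind q t ≤
      L * (((rho f p : ℝ) / p) * ((rho f q : ℝ) / q)) + rho f p * rho f q := by
    intro p hp q hq hpq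
    have h := count_two f A B hAB (hP p hp) (hP q hq) hpq
    rw [card_filter] at h
    push_cast at h
    have h1 := (abs_le.1 h).2
    have e : ∀ t, ind p t * ind q t =
        if ((p : ℤ) ∣ f.eval t ∧ (q : ℤ) ∣ f.eval t) then 1 else 0 := by
      intro t
      simp only [hind]
      split_ifs <;> simp_all
    rw [sum_congr rfl (fun t _ => e t)]
    linarith
  have hR0 : 0 ≤ R := sum_nonneg fun p _ => Nat.cast_nonneg _
  have hS0 : 0 ≤ S := sum_nonneg fun p _ => by positivity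
  have hSR : S ≤ R := by
    refine sum_le_sum fun p hp => ?_
    have h1 : (1 : ℝ) ≤ p := by exact_mod_cast (hP p hp).one_lt.le
    exact div_le_self (Nat.cast_nonneg _) h1
  have hRR : R ≤ R ^ 2 := by
    have h1 : R = ((∑ p ∈ P, rho f p : ℕ) : ℝ) := by
      rw [hR]
      unfold RR
      push_cast
      rfl
    rcases Nat.eq_zero_or_pos (∑ p ∈ P, rho f p) with h2 | h2
    · rw [h1, h2]
      norm_num
    · have h3 : (1 : ℝ) ≤ R := by
        rw [h1]
        exact_mod_cast h2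
      nlinarith
  -- the first moment
  have m1 : L * S - R ≤ ∑ t ∈ I, (om f P t : ℝ) := by
    have e1 : ∑ t ∈ I, (om f P t : ℝ) = ∑ p ∈ P, ∑ t ∈ I, ind p t := by
      rw [sum_congr rfl (fun t _ => hom t), sum_comm]
    rw [e1]
    have e2 : L * S - R = ∑ p ∈ P, (L * ((rho f p : ℝ) / p) - rho f p) := by
      rw [sum_sub_distrib, ← mul_sum]
      rfl
    rw [e2]
    refine sum_le_sum fun p hp => ?_
    have := (abs_le.1 (hc1 p hp)).1
    linarith
  -- the second moment
  have m2 : ∑ t ∈ I, (om f P t : ℝ) ^ 2 ≤ L * S ^ 2 + R ^ 2 + L * S + R := by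
    have e1 : ∑ t ∈ I, (om f P t : ℝ) ^ 2 = ∑ p ∈ P, ∑ q ∈ P, ∑ t ∈ I, ind p t * ind q t := by
      have e2 : ∀ t ∈ I, (om f P t : ℝ) ^ 2 = ∑ p ∈ P, ∑ q ∈ P, ind p t * ind q t := by
        intro t _
        rw [hom, pow_two, sum_mul_sum]
      rw [sum_congr rfl e2, sum_comm]
      refine sum_congr rfl fun p _ => ?_
      rw [sum_comm]
    rw [e1]
    have e3 : ∀ p ∈ P, ∑ q ∈ P, ∑ t ∈ I, ind p t * ind q t ≤
        L * (((rho f p : ℝ) / p) * S) + rho f p * R + (L * ((rho f p : ℝ) / p) + rho f p) := by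
      intro p hp
      have e4 : ∀ q ∈ P, ∑ t ∈ I, ind p t * ind q t ≤
          (L * (((rho f p : ℝ) / p) * ((rho f q : ℝ) / q)) + rho f p * rho f q) +
          (if p = q then (L * ((rho f p : ℝ) / p) + rho f p) else 0) := by
        intro q hq
        by_cases hpq : p = q
        · rw [if_pos hpq, ← hpq]
          have h1 : ∀ t, ind p t * ind p t = ind p t := by
            intro t
            simp only [hind]
            split_ifs <;> simp
          rw [sum_congr rfl (fun t _ => h1 t)]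
          have h2 := (abs_le.1 (hc1 p hp)).2
          have h3 : 0 ≤ L * (((rho f p : ℝ) / p) * ((rho f p : ℝ) / p)) + rho f p * rho f p := by
            positivity
          linarith
        · rw [if_neg hpq, add_zero]
          exact hc2 p hp q hq hpq
      refine (sum_le_sum e4).trans ?_
      rw [sum_add_distrib, sum_add_distrib, sum_ite_eq, if_pos hp, ← mul_sum, ← mul_sum,
        ← mul_sum]
      rfl
    refine (sum_le_sum e3).trans ?_
    rw [sum_add_distrib, sum_add_distrib, sum_add_distrib, ← mul_sum, ← sum_mul, ← sum_mul,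
      ← mul_sum]
    have e5 : ∑ p ∈ P, (rho f p : ℝ) / p = S := rfl
    have e6 : ∑ p ∈ P, (rho f p : ℝ) = R := rfl
    rw [e5, e6]
    apply le_of_eq
    ring
  have e7 : ∑ t ∈ I, ((om f P t : ℝ) - S) ^ 2 =
      ∑ t ∈ I, (om f P t : ℝ) ^ 2 - 2 * S * ∑ t ∈ I, (om f P t : ℝ) + L * S ^ 2 := by
    have e8 : ∀ t ∈ I, ((om f P t : ℝ) - S) ^ 2 =
        ((om f P t : ℝ) ^ 2 - 2 * S * (om f P t : ℝ)) + S ^ 2 := by
      intro t _
      ring
    rw [sum_congr rfl e8, sum_add_distrib, sum_sub_distrib, ← mul_sum, sum_const, nsmul_eq_mul,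
      hIc]
  rw [e7]
  have h1 : 2 * S * (L * S - R) ≤ 2 * S * ∑ t ∈ I, (om f P t : ℝ) :=
    mul_le_mul_of_nonneg_left m1 (by positivity)
  have h2 : 2 * S * R ≤ 2 * R ^ 2 := by nlinarith
  nlinarith

open scoped Classical in
/-- few `t` with few prime divisors -/
theorem cheb (f : ℤ[X]) (P : Finset ℕ) (hP : ∀ p ∈ P, p.Prime) (A B : ℤ) (hAB : A ≤ B)
    (η : ℝ) (hη : 0 < η) (hS : 0 < SS f P) :
    (((Ioc A B).filter (fun t => (om f P t : ℝ) ≤ (1 - η) * SS f P)).card : ℝ) ≤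
      (((B : ℝ) - A) / SS f P + 4 * (RR f P) ^ 2 / (SS f P) ^ 2) / η ^ 2 := by
  have h := turan f P hP A B hAB
  set F := (Ioc A B).filter (fun t => (om f P t : ℝ) ≤ (1 - η) * SS f P) with hF
  have h1 : (F.card : ℝ) * (η * SS f P) ^ 2 ≤ ∑ t ∈ Ioc A B, ((om f P t : ℝ) - SS f P) ^ 2 := by
    rw [← nsmul_eq_mul, ← sum_const]
    refine (sum_le_sum (fun t ht => ?_)).trans
      (sum_le_sum_of_subset_of_nonneg (filter_subset _ _) fun t _ _ => sq_nonneg _)
    have h2 := (mem_filter.1 ht).2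
    have h3 : 0 < η * SS f P := mul_pos hη hS
    nlinarith
  have h2 := h1.trans h
  rw [le_div_iff₀ (by positivity)]
  have h3 : ((B : ℝ) - A) / SS f P + 4 * (RR f P) ^ 2 / (SS f P) ^ 2 =
      (((B : ℝ) - A) * SS f P + 4 * (RR f P) ^ 2) / (SS f P) ^ 2 := by
    field_simp
  rw [h3, le_div_iff₀ (by positivity)]
  calc (F.card : ℝ) * η ^ 2 * SS f P ^ 2 = (F.card : ℝ) * (η * SS f P) ^ 2 := by ring
    _ ≤ _ := h2

end Pool.Agent.U409.LS
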