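import Pool.Agent.U214.PT.Cnt
import Pool.Agent.U409.LS.Tur

/-!
# Square divisors and large prime divisors of the values of a polynomial
-/

set_option autoImplicit false

namespace Pool.Agent.U409.LS

open Polynomial Finset
open Pool.Agent.H474R2.PG (rho)
open Pool.Agent.H256R2.SC (count_ap)
open Pool.Agent.U214.PT (Pg lift_inj)

open scoped Classical in
lemma sq_one (f : ℤ[X]) {d z : ℕ} (hf : Pg f d z) (A B : ℤ) (hAB : A ≤ B) {p : ℕ} (hp : p.Prime)
    (hzp : z < p) :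
    (((Ioc A B).filter (fun t : ℤ => (p : ℤ) ^ 2 ∣ f.eval t)).card : ℝ) ≤
      d * (((B : ℝ) - A) * ((p : ℝ) ^ 2)⁻¹ + 1) := by
  set Z := (range p).filter (fun a : ℕ => (p : ℤ) ∣ f.eval (a : ℤ)) with hZ
  have hZc : Z.card = rho f p := rfl
  have hp0 : (0 : ℤ) < p := by exact_mod_cast hp.pos
  set F := (Ioc A B).filter (fun t : ℤ => (p : ℤ) ^ 2 ∣ f.eval t) with hF
  have hmod : ∀ a : ℤ, (((a % (p : ℤ)).toNat : ℕ) : ℤ) = a % (p : ℤ) :=
    fun a => Int.toNat_of_nonneg (Int.emod_nonneg _ hp0.ne')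
  have hdvd : ∀ a : ℤ, (p : ℤ) ∣ a - ((a % (p : ℤ)).toNat : ℕ) := by
    intro a
    rw [hmod]
    exact Int.dvd_self_sub_emod
  have hpp : ∀ t ∈ F, (p : ℤ) ∣ f.eval t := by
    intro t ht
    exact (dvd_pow_self _ two_ne_zero).trans (mem_filter.1 ht).2
  have hmaps : Set.MapsTo (fun a : ℤ => (a % (p : ℤ)).toNat) (F : Set ℤ) (Z : Set ℕ) := by
    intro a ha
    rw [mem_coe, hZ, mem_filter, mem_range]
    constructor
    · have h1 := Int.emod_lt_of_pos a hp0
      have h2 := hmod a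
      show (a % (p : ℤ)).toNat < p
      omega
    · exact (Pool.Agent.H474R2.PG.eval_dvd_congr f p _ _ (hdvd a)).1 (hpp a ha)
  rw [card_eq_sum_card_fiberwise hmaps]
  push_cast
  have hZd : (Z.card : ℝ) ≤ d := by
    rw [hZc]
    exact_mod_cast hf.rho p hp hzp
  have h0 : (0 : ℝ) ≤ (B : ℝ) - A := by
    rw [sub_nonneg]
    exact_mod_cast hAB
  calc ∑ b ∈ Z, ((F.filter (fun a : ℤ => (a % (p : ℤ)).toNat = b)).card : ℝ)
      ≤ ∑ b ∈ Z, (((B : ℝ) - A) * ((p : ℝ) ^ 2)⁻¹ + 1) := by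
        refine sum_le_sum fun b _ => ?_
        rcases (F.filter (fun a : ℤ => (a % (p : ℤ)).toNat = b)).eq_empty_or_nonempty with h | ⟨t0, h⟩
        · rw [h, card_empty, Nat.cast_zero]
          positivity
        · rw [mem_filter] at h
          have hq : 1 ≤ p ^ 2 := Nat.one_le_pow _ _ hp.pos
          have h1 := (abs_le.1 (count_ap A B hAB (p ^ 2) hq t0)).2
          have h2 : (F.filter (fun a : ℤ => (a % (p : ℤ)).toNat = b)) ⊆
              (Ioc A B).filter (fun x => ((p ^ 2 : ℕ) : ℤ) ∣ x - t0) := by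
            intro t ht
            rw [mem_filter] at ht
            have ht' := mem_filter.1 ht.1
            rw [mem_filter]
            refine ⟨ht'.1, ?_⟩
            push_cast
            refine lift_inj (f := f) hp ?_ ?_ ?_
            · have h3 := hdvd t
              have h4 := hdvd t0
              rw [ht.2] at h3
              rw [h.2] at h4
              have h5 := dvd_sub h3 h4
              simpa using h5
            · exact dvd_sub ht'.2 (mem_filter.1 h.1).2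
            · exact hf.der p hp hzp t0 (hpp t0 h.1)
          have h3 : ((F.filter (fun a : ℤ => (a % (p : ℤ)).toNat = b)).card : ℝ) ≤
              (((Ioc A B).filter (fun x => ((p ^ 2 : ℕ) : ℤ) ∣ x - t0)).card : ℝ) := by
            exact_mod_cast card_le_card h2
          push_cast at h1 h3 ⊢
          rw [div_eq_mul_inv] at h1
          linarith
    _ = Z.card * (((B : ℝ) - A) * ((p : ℝ) ^ 2)⁻¹ + 1) := by
        rw [sum_const, nsmul_eq_mul]
    _ ≤ d * (((B : ℝ) - A) * ((p : ℝ) ^ 2)⁻¹ + 1) :=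
        mul_le_mul_of_nonneg_right hZd (by positivity)

open scoped Classical in
/-- few values have a square divisor -/
theorem sq_count (f : ℤ[X]) {d z' z y : ℕ} (hf : Pg f d z') (hz : z' ≤ z) (hz0 : 0 < z)
    (hzy : z ≤ y) (A B : ℤ) (hAB : A ≤ B) :
    (((Ioc A B).filter (fun t : ℤ => ∃ p : ℕ, p.Prime ∧ z < p ∧ p ≤ y ∧
      (p : ℤ) ^ 2 ∣ f.eval t)).card : ℝ) ≤ d * (((B : ℝ) - A) / z + y) := by
  have h0 : (0 : ℝ) ≤ (B : ℝ) - A := by
    rw [sub_nonneg]
    exact_mod_cast hAB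
  have h1 : (Ioc A B).filter (fun t : ℤ => ∃ p : ℕ, p.Prime ∧ z < p ∧ p ≤ y ∧
      (p : ℤ) ^ 2 ∣ f.eval t) ⊆ ((Ioc z y).filter Nat.Prime).biUnion (fun p =>
        (Ioc A B).filter (fun t : ℤ => (p : ℤ) ^ 2 ∣ f.eval t)) := by
    intro t ht
    rw [mem_filter] at ht
    obtain ⟨ht, p, hp, hzp, hpy, hpt⟩ := ht
    rw [mem_biUnion]
    exact ⟨p, mem_filter.2 ⟨mem_Ioc.2 ⟨hzp, hpy⟩, hp⟩, mem_filter.2 ⟨ht, hpt⟩⟩
  have h2 : (((Ioc A B).filter (fun t : ℤ => ∃ p : ℕ, p.Prime ∧ z < p ∧ p ≤ y ∧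
      (p : ℤ) ^ 2 ∣ f.eval t)).card : ℝ) ≤ ∑ p ∈ (Ioc z y).filter Nat.Prime,
        (((Ioc A B).filter (fun t : ℤ => (p : ℤ) ^ 2 ∣ f.eval t)).card : ℝ) := by
    exact_mod_cast (card_le_card h1).trans card_biUnion_le
  refine h2.trans ?_
  calc ∑ p ∈ (Ioc z y).filter Nat.Prime,
        (((Ioc A B).filter (fun t : ℤ => (p : ℤ) ^ 2 ∣ f.eval t)).card : ℝ)
      ≤ ∑ p ∈ (Ioc z y).filter Nat.Prime, (d * (((B : ℝ) - A) * ((p : ℝ) ^ 2)⁻¹ + 1) : ℝ) := by
        refine sum_le_sum fun p hp => ?_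
        rw [mem_filter, mem_Ioc] at hp
        exact sq_one f hf A B hAB hp.2 (lt_of_le_of_lt hz hp.1.1)
    _ ≤ ∑ p ∈ Ioc z y, (d * (((B : ℝ) - A) * ((p : ℝ) ^ 2)⁻¹ + 1) : ℝ) :=
        sum_le_sum_of_subset_of_nonneg (filter_subset _ _) fun p _ _ => by positivity
    _ = d * (((B : ℝ) - A) * (∑ p ∈ Ioc z y, ((p : ℝ) ^ 2)⁻¹) + ((y - z : ℕ) : ℝ)) := by
        rw [← mul_sum, sum_add_distrib, ← mul_sum, sum_const, Nat.card_Ioc, nsmul_eq_mul, mul_one]
    _ ≤ d * (((B : ℝ) - A) / z + y) := by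
        have h3 : ∑ p ∈ Ioc z y, ((p : ℝ) ^ 2)⁻¹ ≤ (z : ℝ)⁻¹ := by
          refine (sum_Ioc_inv_sq_le_sub hz0.ne' hzy).trans ?_
          have : (0 : ℝ) ≤ (y : ℝ)⁻¹ := by positivity
          linarith
        have h4 : ((y - z : ℕ) : ℝ) ≤ y := by exact_mod_cast Nat.sub_le _ _
        rw [div_eq_mul_inv]
        gcongr

/-- the number of the large prime divisors -/
lemma big_count {F : ℤ} (hF0 : F ≠ 0) {X y e k : ℕ} (hF : F.natAbs ≤ X ^ e) (he : 1 ≤ e)
    (hk : X < (y + 1) ^ k) :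
    (F.natAbs.primeFactors.filter (fun p => y < p)).card ≤ k * e := by
  set S := F.natAbs.primeFactors.filter (fun p => y < p) with hS
  by_contra hcon
  push Not at hcon
  have h1 : (y + 1) ^ S.card ≤ ∏ p ∈ S, p := by
    rw [← prod_const]
    refine prod_le_prod' fun p hp => ?_
    exact (mem_filter.1 hp).2
  have h2 : ∏ p ∈ S, p ∣ F.natAbs :=
    (prod_dvd_prod_of_subset _ _ (fun p => p) (filter_subset _ _)).trans
      (Nat.prod_primeFactors_dvd _)
  have h3 := Nat.le_of_dvd (Int.natAbs_pos.2 hF0) h2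
  have h4 : X ^ e < (y + 1) ^ (k * e) := by
    rw [pow_mul]
    exact Nat.pow_lt_pow_left hk (by omega)
  have h5 : (y + 1) ^ (k * e) ≤ (y + 1) ^ S.card := Nat.pow_le_pow_right (by omega) hcon.le
  omega

end Pool.Agent.U409.LS
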