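import Pool.Agent.U214.PT.ShaQ
import Pool.Agent.U409.LS.Alg
import Pool.Agent.U409.LS.Sq

/-!
# `Ш[2]` is large for almost all members of the isogenous family
-/

set_option autoImplicit false

namespace Pool.Agent.U409.LS

open Polynomial Finset
open Pool.Agent.H474R2.PG (rho)
open Pool.Agent.U214.PT (Pg Sep pg_wt)
open Pool.Agent.W262.SH (E)
open Pool.Agent.TH841.SH.D (ShaTor rk)
open Pool.Agent.U409.SH (qq)

open scoped Classical in
/-- the primes `≤ y` for which `n` is not a residue -/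
noncomputable def PM (n : ℤ) (y : ℕ) : Finset ℕ :=
  (Icc 1 y).filter (fun p => p.Prime ∧ ¬ lu p n = 1)

/-- the isogenous curve -/
noncomputable abbrev WW (r s d : ℤ) : WeierstrassCurve ℚ :=
  Wc (-(r * d + s * d)) ((r * d) * (s * d))

open scoped Classical in
lemma rk_le {A B : ℤ} (hA : A ≠ 0) (hB : B ≠ 0) (hAB : A ≠ B) : 2 ^ rk (E A B) ≤ qq A B := by
  have hfin := Pool.Agent.U409.SH.fin2 A B hA hB hAB
  unfold qq
  have h1 : 0 < Nat.card {c : Pool.Agent.W262.SH.Sha (E A B) // c + c = 0} := by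
    have : Nonempty {c : Pool.Agent.W262.SH.Sha (E A B) // c + c = 0} := ⟨⟨0, add_zero 0⟩⟩
    exact Nat.card_pos
  exact Nat.le_mul_of_pos_right _ h1

open scoped Classical in
/-- the lower bound for one value -/
theorem one {r s : ℤ} (hr : r ≠ 0) (hs : s ≠ 0) (hrs : r ≠ s) {D : ℤ[X]} {z y X e k : ℕ}
    (hz : ∀ p : ℕ, p.Prime → z < p → p ≠ 2 ∧ ¬ (p : ℤ) ∣ r ∧ ¬ (p : ℤ) ∣ s ∧ ¬ (p : ℤ) ∣ r - s)
    {t : ℤ} (hDt : D.eval t ≠ 0) (hF : (D.eval t).natAbs ≤ X ^ e) (he : 1 ≤ e)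
    (hk : X < (y + 1) ^ k)
    (hsq : ¬ ∃ p : ℕ, p.Prime ∧ z < p ∧ p ≤ y ∧ (p : ℤ) ^ 2 ∣ D.eval t) :
    ((2 ^ (om D (PM (r * s) y \ PM (r * s) z) t) : ℕ) : ℕ∞) ≤
      ((24 * 2 ^ (z + k * e) * 2 ^ rk (E (r * D.eval t) (s * D.eval t)) : ℕ) : ℕ∞) *
        ENat.card (ShaTor (WW r s (D.eval t)) 2) := by
  set d := D.eval t with hd
  set G : Finset ℕ := (Ioc z y).filter (fun p => p.Prime ∧ (p : ℤ) ∣ d) with hG
  set Bd : Finset ℕ := ((r * s * (r - s) * d).natAbs.primeFactors.filter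
    (fun p => p ≠ 2 ∧ p ∉ G)) with hBd
  have hne : r * s * (r - s) * d ≠ 0 :=
    mul_ne_zero (mul_ne_zero (mul_ne_zero hr hs) (sub_ne_zero.2 hrs)) hDt
  have hGm : ∀ p ∈ G, p.Prime ∧ z < p ∧ p ≤ y ∧ (p : ℤ) ∣ d := by
    intro p hp
    rw [hG, mem_filter, mem_Ioc] at hp
    exact ⟨hp.2.1, hp.1.1, hp.1.2, hp.2.2⟩
  have hyp : Hyp r s d G Bd := by
    refine ⟨hr, hs, hrs, hDt, fun p hp => (hGm p hp).1,
      fun p hp => (hz p (hGm p hp).1 (hGm p hp).2.1).1,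
      fun p hp => (hz p (hGm p hp).1 (hGm p hp).2.1).2,
      fun p hp => ⟨(hGm p hp).2.2.2, fun h => hsq ⟨p, (hGm p hp).1, (hGm p hp).2.1,
        (hGm p hp).2.2.1, h⟩⟩, fun p hp => ?_, fun p hp hp2 hpd => ?_⟩
    · rw [hBd, mem_filter] at hp
      exact ⟨Nat.prime_of_mem_primeFactors hp.1, hp.2⟩
    · by_cases hpG : p ∈ G
      · exact Or.inl hpG
      · right
        rw [hBd, mem_filter, Nat.mem_primeFactors]
        exact ⟨⟨hp, Int.natCast_dvd.1 hpd, Int.natAbs_ne_zero.2 hne⟩, hp2, hpG⟩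
  have h1 := alg hyp
  have hBc : Bd.card ≤ z + k * e := by
    have h2 : Bd ⊆ Icc 1 z ∪ (d.natAbs.primeFactors.filter (fun p => y < p)) := by
      intro p hp
      rw [hBd, mem_filter, Nat.mem_primeFactors] at hp
      obtain ⟨⟨hp1, hp2, hp3⟩, hp4, hp5⟩ := hp
      rw [mem_union, mem_Icc, mem_filter, Nat.mem_primeFactors]
      rcases Nat.lt_or_ge z p with h | h
      swap
      · exact Or.inl ⟨hp1.one_lt.le, h⟩
      · right
        obtain ⟨_, h3, h4, h5⟩ := hz p hp1 h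
        have hpi : Prime (p : ℤ) := Nat.prime_iff_prime_int.1 hp1
        have hpd : (p : ℤ) ∣ d := by
          have h6 : (p : ℤ) ∣ r * s * (r - s) * d := Int.natCast_dvd.2 hp2
          rcases hpi.dvd_or_dvd h6 with h7 | h7
          · exfalso
            rcases hpi.dvd_or_dvd h7 with h8 | h8
            · rcases hpi.dvd_or_dvd h8 with h9 | h9
              · exact h3 h9
              · exact h4 h9
            · exact h5 h8
          · exact h7
        refine ⟨⟨hp1, Int.natCast_dvd.1 hpd, Int.natAbs_ne_zero.2 hDt⟩, ?_⟩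
        by_contra hcon
        apply hp5
        rw [hG, mem_filter, mem_Ioc]
        exact ⟨⟨h, not_lt.1 hcon⟩, hp1, hpd⟩
    refine (card_le_card h2).trans ((card_union_le _ _).trans ?_)
    rw [Nat.card_Icc, Nat.add_sub_cancel]
    exact Nat.add_le_add_left (big_count hDt hF he hk) z
  have hom : om D (PM (r * s) y \ PM (r * s) z) t ≤ (Gm r s G).card := by
    unfold om
    refine card_le_card fun p hp => ?_
    unfold PM at hp
    rw [mem_filter, mem_sdiff, mem_filter, mem_filter, mem_Icc, mem_Icc] at hp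
    obtain ⟨⟨⟨⟨hp1, hp2⟩, hp3, hp4⟩, hp5⟩, hp6⟩ := hp
    unfold Gm
    rw [mem_filter, hG, mem_filter, mem_Ioc]
    refine ⟨⟨⟨?_, hp2⟩, hp3, hp6⟩, hp4⟩
    by_contra hcon
    exact hp5 ⟨⟨hp1, not_lt.1 hcon⟩, hp3, hp4⟩
  calc ((2 ^ (om D (PM (r * s) y \ PM (r * s) z) t) : ℕ) : ℕ∞)
      ≤ ((2 ^ (Gm r s G).card : ℕ) : ℕ∞) := by
        exact_mod_cast Nat.pow_le_pow_right (by norm_num) hom
    _ ≤ _ := h1
    _ ≤ _ := by
        apply mul_le_mul_left
        norm_cast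
        have h3 : 2 ^ Bd.card ≤ 2 ^ (z + k * e) := Nat.pow_le_pow_right (by norm_num) hBc
        have h4 : 2 + 4 * 2 ^ rk (E (r * d) (s * d)) ≤ 6 * 2 ^ rk (E (r * d) (s * d)) := by
          have := Nat.one_le_two_pow (n := rk (E (r * d) (s * d)))
          omega
        calc 4 * 2 ^ Bd.card * (2 + 4 * 2 ^ rk (E (r * d) (s * d)))
            ≤ 4 * 2 ^ (z + k * e) * (6 * 2 ^ rk (E (r * d) (s * d))) :=
              Nat.mul_le_mul (Nat.mul_le_mul_left _ h3) h4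
          _ = _ := by ring

end Pool.Agent.U409.LS
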