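import Mathlib

/-!
# Local points of the quartics `N² = c (u² - r k) (u² - s k)`
-/

set_option autoImplicit false

namespace Pool.Agent.U409.LS

/-- local solubility -/
def Sol (K : Type) [Field K] (r s c k : ℤ) : Prop :=
  IsSquare (c : K) ∨ ∃ u N : K, N ^ 2 = c * (u ^ 2 - r * k) * (u ^ 2 - s * k)

lemma Sol.pt {K : Type} [Field K] {r s c k : ℤ} (h : Sol K r s c k) :
    IsSquare (c : K) ∨ ∃ u N : K, (c : K) * N ^ 2 = (c * u ^ 2) ^ 2 +
      ((-(r * (c * k) + s * (c * k)) : ℤ) : K) * (c * u ^ 2) +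
      (((r * (c * k)) * (s * (c * k)) : ℤ) : K) := by
  rcases h with h | ⟨u, N, h⟩
  · exact Or.inl h
  · right
    refine ⟨u, N, ?_⟩
    push_cast
    rw [h]
    ring

lemma sol_real {r s c k : ℤ} (hc : 0 < c) : Sol ℝ r s c k := by
  left
  have h : (0 : ℝ) ≤ c := by exact_mod_cast hc.le
  exact ⟨Real.sqrt c, (Real.mul_self_sqrt h).symm⟩

section

open Polynomial

lemma padic_sq {p : ℕ} [hp : Fact p.Prime] (hp2 : p ≠ 2) {n : ℤ} (hn : ¬ (p : ℤ) ∣ n)
    (h : IsSquare (n : ZMod p)) : IsSquare (n : ℚ_[p]) := by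
  obtain ⟨a, ha⟩ := h
  obtain ⟨s, hs⟩ := ZMod.intCast_surjective a
  have h1 : (p : ℤ) ∣ s ^ 2 - n := by
    rw [← ZMod.intCast_zmod_eq_zero_iff_dvd]
    push_cast
    rw [ha, hs]
    ring
  have h2 : ¬ (p : ℤ) ∣ 2 * s := by
    intro h2
    have hpi : Prime (p : ℤ) := Nat.prime_iff_prime_int.1 hp.out
    rcases hpi.dvd_or_dvd h2 with h3 | h3
    · have h5 : p ∣ 2 := by exact_mod_cast h3
      exact hp2 ((Nat.prime_dvd_prime_iff_eq hp.out Nat.prime_two).1 h5)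
    · apply hn
      have := dvd_sub ((dvd_pow h3 two_ne_zero : (p : ℤ) ∣ s ^ 2)) h1
      simpa using this
  have e1 : ∀ w : ℤ_[p], (aeval w) (X ^ 2 - C (n : ℤ_[p]) : ℤ_[p][X]) = w ^ 2 - n := by
    intro w; simp
  have e2 : ∀ w : ℤ_[p], (aeval w) (derivative (X ^ 2 - C (n : ℤ_[p]) : ℤ_[p][X])) = 2 * w := by
    intro w; simp; norm_num
  obtain ⟨z, hz, -⟩ := hensels_lemma (p := p) (R := ℤ_[p]) (F := X ^ 2 - C (n : ℤ_[p]))
    (a := (s : ℤ_[p])) (by
      rw [e1, e2]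
      have h3 : ‖((s ^ 2 - n : ℤ) : ℤ_[p])‖ < 1 := by
        rw [PadicInt.norm_intCast_lt_one_iff]
        exact h1
      have h4 : ‖((2 * s : ℤ) : ℤ_[p])‖ = 1 := by
        have h5 : ¬ ‖((2 * s : ℤ) : ℤ_[p])‖ < 1 := by
          rw [PadicInt.norm_intCast_lt_one_iff]
          exact h2
        exact le_antisymm (PadicInt.norm_le_one _) (not_lt.1 h5)
      push_cast at h3 h4
      rw [h4]
      simpa using h3)
  rw [e1] at hz
  have h6 := congrArg (fun w : ℤ_[p] => (w : ℚ_[p])) (sub_eq_zero.1 hz)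
  push_cast at h6
  exact ⟨z, by rw [← h6]; ring⟩

lemma padic_sq2 {n : ℤ} (hn : n % 8 = 1) : IsSquare (n : ℚ_[2]) := by
  have e1 : ∀ w : ℤ_[2], (aeval w) (X ^ 2 - C (n : ℤ_[2]) : ℤ_[2][X]) = w ^ 2 - n := by
    intro w; simp
  have e2 : ∀ w : ℤ_[2], (aeval w) (derivative (X ^ 2 - C (n : ℤ_[2]) : ℤ_[2][X])) = 2 * w := by
    intro w; simp; norm_num
  obtain ⟨z, hz, -⟩ := hensels_lemma (p := 2) (R := ℤ_[2]) (F := X ^ 2 - C (n : ℤ_[2]))
    (a := 1) (by
      rw [e1, e2]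
      have h4 : ‖(2 : ℤ_[2])‖ = 2⁻¹ := by
        have := PadicInt.norm_p (p := 2)
        exact_mod_cast this
      have h3 : ‖((1 - n : ℤ) : ℤ_[2])‖ ≤ ((2 : ℕ) : ℝ) ^ (-(3 : ℕ) : ℤ) := by
        rw [PadicInt.norm_int_le_pow_iff_dvd]
        push_cast
        omega
      push_cast at h3
      rw [one_pow, mul_one, h4]
      refine lt_of_le_of_lt h3 ?_
      norm_num)
  rw [e1] at hz
  have h6 := congrArg (fun w : ℤ_[2] => (w : ℚ_[2])) (sub_eq_zero.1 hz)
  push_cast at h6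
  exact ⟨z, by rw [← h6]; ring⟩

end

variable {p : ℕ} [hp : Fact p.Prime]

lemma not_dvd_of_one {n : ℤ} (h : legendreSym p n ≠ 0) : ¬ (p : ℤ) ∣ n := by
  intro hd
  apply h
  exact (legendreSym.eq_zero_iff p n).2 ((ZMod.intCast_zmod_eq_zero_iff_dvd n p).2 hd)

lemma leg_pm {n : ℤ} (h : ¬ (p : ℤ) ∣ n) : legendreSym p n = 1 ∨ legendreSym p n = -1 :=
  legendreSym.eq_one_or_neg_one p (fun h0 => h ((ZMod.intCast_zmod_eq_zero_iff_dvd n p).1 h0))

/-- a square -/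
lemma sq_leg (hp2 : p ≠ 2) {n : ℤ} (h : legendreSym p n = 1) : IsSquare (n : ℚ_[p]) := by
  have hn : ¬ (p : ℤ) ∣ n := not_dvd_of_one (by rw [h]; exact one_ne_zero)
  have hn0 : (n : ZMod p) ≠ 0 := fun h0 => hn ((ZMod.intCast_zmod_eq_zero_iff_dvd n p).1 h0)
  exact padic_sq hp2 hn ((legendreSym.eq_one_iff p hn0).1 h)

/-- the pigeonhole argument -/
lemma pig {F : Type} [Field F] [Fintype F] {α β : F} (hα : ¬ IsSquare α)
    (hβ : ¬ IsSquare β) (hαβ : α ≠ β) : ∃ m : F, ¬ IsSquare ((m ^ 2 - α) * (m ^ 2 - β)) := by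
  classical
  by_contra hcon
  push Not at hcon
  set S : Finset F := Finset.univ.filter (fun v => IsSquare v) with hS
  have hmem : ∀ v ∈ S, v - α ≠ 0 ∧ v - β ≠ 0 := by
    intro v hv
    have hv' := (Finset.mem_filter.1 hv).2
    constructor
    · intro h
      exact hα (by rw [← sub_eq_zero.1 h]; exact hv')
    · intro h
      exact hβ (by rw [← sub_eq_zero.1 h]; exact hv')
  have h1 : S.card ≤ (S.erase 0).card := by
    refine Finset.card_le_card_of_injOn (fun v => (v - α) / (v - β)) ?_ ?_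
    · intro v hv
      obtain ⟨h2, h3⟩ := hmem v hv
      rw [Finset.mem_coe, Finset.mem_erase, hS, Finset.mem_filter]
      refine ⟨div_ne_zero h2 h3, Finset.mem_univ _, ?_⟩
      obtain ⟨m, hm⟩ := (Finset.mem_filter.1 (Finset.mem_coe.1 hv)).2
      obtain ⟨w, hw⟩ := hcon m
      refine ⟨w / (v - β), ?_⟩
      rw [← pow_two] at hm
      rw [← hm] at hw
      field_simp
      linear_combination hw
    · intro v hv w hw h
      obtain ⟨h2, h3⟩ := hmem v hv
      obtain ⟨h4, h5⟩ := hmem w hw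
      have h' : (v - α) / (v - β) = (w - α) / (w - β) := h
      rw [div_eq_div_iff h3 h5] at h'
      have h6 : (α - β) * (v - w) = 0 := by linear_combination h'
      exact sub_eq_zero.1 ((mul_eq_zero.1 h6).resolve_left (sub_ne_zero.2 hαβ))
  have h0 : (0 : F) ∈ S := by
    rw [hS, Finset.mem_filter]
    exact ⟨Finset.mem_univ _, 0, by ring⟩
  have h2 := Finset.card_erase_lt_of_mem h0
  omega

/-- a root of the quartic -/
lemma sol_root (hp2 : p ≠ 2) {r s c k : ℤ}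
    (h : legendreSym p (r * k) = 1 ∨ legendreSym p (s * k) = 1) : Sol ℚ_[p] r s c k := by
  right
  rcases h with h | h
  · obtain ⟨u, hu⟩ := sq_leg hp2 h
    refine ⟨u, 0, ?_⟩
    push_cast at hu
    rw [pow_two u, ← hu]
    ring
  · obtain ⟨u, hu⟩ := sq_leg hp2 h
    refine ⟨u, 0, ?_⟩
    push_cast at hu
    rw [pow_two u, ← hu]
    ring

lemma sol_sq (hp2 : p ≠ 2) {r s c k : ℤ} (h : legendreSym p c = 1) : Sol ℚ_[p] r s c k :=
  Or.inl (sq_leg hp2 h)

lemma sol_two {r s c k : ℤ} (h : c % 8 = 1) : Sol ℚ_[2] r s c k :=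
  Or.inl (padic_sq2 h)

/-- the point with `u = 0` -/
lemma sol_zero (hp2 : p ≠ 2) {r s c k : ℤ} (h : legendreSym p (c * (r * s)) = 1) :
    Sol ℚ_[p] r s c k := by
  right
  obtain ⟨u, hu⟩ := sq_leg hp2 h
  refine ⟨0, k * u, ?_⟩
  push_cast at hu
  have e : ((k : ℚ_[p]) * u) ^ 2 = (k : ℚ_[p]) ^ 2 * (u * u) := by ring
  rw [e, ← hu]
  ring

/-- the primes of good reduction -/
lemma sol_good (hp2 : p ≠ 2) {r s c k : ℤ} (hr : ¬ (p : ℤ) ∣ r) (hs : ¬ (p : ℤ) ∣ s)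
    (hrs : ¬ (p : ℤ) ∣ r - s) (hc : ¬ (p : ℤ) ∣ c) (hk : ¬ (p : ℤ) ∣ k) :
    Sol ℚ_[p] r s c k := by
  have hpi : Prime (p : ℤ) := Nat.prime_iff_prime_int.1 hp.out
  have hrk : ¬ (p : ℤ) ∣ r * k := fun h => (hpi.dvd_or_dvd h).elim hr hk
  have hsk : ¬ (p : ℤ) ∣ s * k := fun h => (hpi.dvd_or_dvd h).elim hs hk
  rcases leg_pm hc with h1 | h1
  · exact sol_sq hp2 h1
  rcases leg_pm hrk with h2 | h2
  · exact sol_root hp2 (Or.inl h2)
  rcases leg_pm hsk with h3 | h3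
  · exact sol_root hp2 (Or.inr h3)
  have n2 : ¬ IsSquare (((r * k : ℤ)) : ZMod p) := (legendreSym.eq_neg_one_iff p).1 h2
  have n3 : ¬ IsSquare (((s * k : ℤ)) : ZMod p) := (legendreSym.eq_neg_one_iff p).1 h3
  obtain ⟨m, hm⟩ := pig n2 n3 (by
    intro h4
    rw [ZMod.intCast_eq_intCast_iff_dvd_sub] at h4
    have h5 : (p : ℤ) ∣ (r - s) * k := by
      have e : (r - s) * k = -(s * k - r * k) := by ring
      rw [e]
      exact (dvd_neg).2 h4
    exact (hpi.dvd_or_dvd h5).elim hrs hk)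
  obtain ⟨m', rfl⟩ := ZMod.intCast_surjective m
  have h4 : legendreSym p ((m' ^ 2 - r * k) * (m' ^ 2 - s * k)) = -1 := by
    rw [legendreSym.eq_neg_one_iff]
    push_cast at hm ⊢
    exact hm
  have h5 : legendreSym p (c * ((m' ^ 2 - r * k) * (m' ^ 2 - s * k))) = 1 := by
    rw [legendreSym.mul, h1, h4]
    norm_num
  obtain ⟨N, hN⟩ := sq_leg hp2 h5
  right
  refine ⟨m', N, ?_⟩
  rw [pow_two N, ← hN]
  push_cast
  ring

/-- primes that divide `c` or `k` and for which `r s` is a non-residue -/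
lemma sol_neg (hp2 : p ≠ 2) {r s c k : ℤ} (hrs : legendreSym p (r * s) = -1)
    (h : ¬ (p : ℤ) ∣ c ∨ ¬ (p : ℤ) ∣ k) : Sol ℚ_[p] r s c k := by
  rcases h with hc | hk
  · rcases leg_pm hc with h1 | h1
    · exact sol_sq hp2 h1
    · apply sol_zero hp2
      rw [legendreSym.mul, h1, hrs]
      norm_num
  · apply sol_root hp2
    have h0 : legendreSym p k * legendreSym p k = 1 := by
      rcases leg_pm hk with h1 | h1 <;> rw [h1] <;> norm_num
    have h1 : legendreSym p (r * k) * legendreSym p (s * k) = -1 := by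
      rw [legendreSym.mul, legendreSym.mul]
      rw [legendreSym.mul] at hrs
      linear_combination legendreSym p r * legendreSym p s * h0 + hrs
    by_contra hcon
    push Not at hcon
    have hrk : ¬ (p : ℤ) ∣ r * k := not_dvd_of_one (by
      intro h2
      rw [h2, zero_mul] at h1
      norm_num at h1)
    have hsk : ¬ (p : ℤ) ∣ s * k := not_dvd_of_one (by
      intro h2
      rw [h2, mul_zero] at h1
      norm_num at h1)
    rw [(leg_pm hrk).resolve_left hcon.1, (leg_pm hsk).resolve_left hcon.2] at h1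
    norm_num at h1

end Pool.Agent.U409.LS
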