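import Mathlib

/-!
# The order of `G / 2 G` for finitely generated abelian groups
-/

set_option autoImplicit false

namespace Pool.Agent.U409.LS

/-- the index of the image of multiplication by two in a finite group -/
lemma idx_fin (T : Type) [AddCommGroup T] [Finite T] :
    Nat.card (T ⧸ (nsmulAddMonoidHom 2 : T →+ T).range) =
      Nat.card (nsmulAddMonoidHom 2 : T →+ T).ker := by
  set f : T →+ T := nsmulAddMonoidHom 2
  have h1 := AddSubgroup.card_eq_card_quotient_mul_card_addSubgroup f.range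
  have h2 := AddSubgroup.card_eq_card_quotient_mul_card_addSubgroup f.ker
  have h3 : Nat.card (T ⧸ f.ker) = Nat.card f.range :=
    Nat.card_congr (QuotientAddGroup.quotientKerEquivRange f).toEquiv
  have h4 : 0 < Nat.card f.range := Nat.card_pos
  rw [h3] at h2
  rw [h2, mul_comm] at h1
  exact (Nat.eq_of_mul_eq_mul_right h4 h1).symm

/-- the order of `G / 2 G` -/
theorem quot_le (G : Type) [AddCommGroup G] (hG : AddGroup.FG G) (n : ℕ)
    (hn : ∀ S : Finset G, (∀ g ∈ S, g + g = 0) → S.card ≤ n) :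
    Finite (G ⧸ (nsmulAddMonoidHom 2 : G →+ G).range) ∧
    Nat.card (G ⧸ (nsmulAddMonoidHom 2 : G →+ G).range) ≤ 2 ^ Module.finrank ℤ G * n := by
  classical
  have : Module.Finite ℤ G := Module.Finite.iff_addGroup_fg.mpr hG
  let T := Submodule.torsion ℤ G
  let M := G ⧸ T
  have hr : Module.finrank ℤ M = Module.finrank ℤ G :=
    finrank_quotient_eq_of_le_torsion le_rfl
  have : Module.Finite ℤ M := inferInstance
  have : Module.Free ℤ M := inferInstance
  have hfinT : Finite T := by
    have h1 : Module.Finite ℤ T := inferInstance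
    exact Module.finite_of_fg_torsion T (Submodule.torsion_isTorsion)
  let r := Module.finrank ℤ M
  let b : Module.Basis (Fin r) ℤ M := Module.finBasis ℤ M
  -- lifts
  have hlift : ∀ v : Fin r → ZMod 2, ∃ g : G, ∀ i, b.repr (T.mkQ g) i = ((v i).val : ℤ) := by
    intro v
    obtain ⟨g, hg⟩ := T.mkQ_surjective (b.equivFun.symm (fun i => ((v i).val : ℤ)))
    refine ⟨g, fun i => ?_⟩
    rw [hg, ← Module.Basis.equivFun_apply, LinearEquiv.apply_symm_apply]
  choose lift hl using hlift
  let D := (nsmulAddMonoidHom 2 : G →+ G).range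
  let DT := (nsmulAddMonoidHom 2 : T →+ T).range
  let Φ : (Fin r → ZMod 2) × (T ⧸ DT) → G ⧸ D := fun x =>
    QuotientAddGroup.mk (lift x.1 + (x.2.out : G))
  have hΦ : Function.Surjective Φ := by
    intro q
    obtain ⟨g, rfl⟩ := QuotientAddGroup.mk_surjective q
    let v : Fin r → ZMod 2 := fun i => ((b.repr (T.mkQ g) i : ℤ) : ZMod 2)
    -- the difference
    have h1 : ∀ i, ∃ m : ℤ, b.repr (T.mkQ (g - lift v)) i = 2 * m := by
      intro i
      rw [map_sub, map_sub, Finsupp.sub_apply, hl]
      have h2 : ((b.repr (T.mkQ g) i - ((v i).val : ℤ) : ℤ) : ZMod 2) = 0 := by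
        push_cast
        rw [ZMod.natCast_zmod_val]
        exact sub_self _
      have h3 := (ZMod.intCast_zmod_eq_zero_iff_dvd _ 2).1 h2
      exact h3
    choose m hm using h1
    obtain ⟨g', hg'⟩ := T.mkQ_surjective (b.equivFun.symm m)
    have h4 : T.mkQ (g - lift v) = T.mkQ (2 • g') := by
      apply b.repr.injective
      ext i
      rw [hm, map_nsmul, map_nsmul, hg', Finsupp.smul_apply, ← Module.Basis.equivFun_apply,
        LinearEquiv.apply_symm_apply]
      simp
    have h5 : g - lift v - 2 • g' ∈ T := by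
      rw [← Submodule.Quotient.mk_eq_zero]
      have h6 : T.mkQ (g - lift v - 2 • g') = 0 := by rw [map_sub, h4, sub_self]
      exact h6
    refine ⟨(v, QuotientAddGroup.mk ⟨_, h5⟩), ?_⟩
    show (QuotientAddGroup.mk _ : G ⧸ D) = QuotientAddGroup.mk g
    rw [QuotientAddGroup.eq_iff_sub_mem]
    have h7 : (QuotientAddGroup.mk (QuotientAddGroup.mk (⟨_, h5⟩ : T) : T ⧸ DT).out : T ⧸ DT) =
      QuotientAddGroup.mk (⟨_, h5⟩ : T) := QuotientAddGroup.out_eq' _
    rw [QuotientAddGroup.eq_iff_sub_mem] at h7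
    obtain ⟨t, ht⟩ := h7
    have h8 : 2 • (t : G) = (((QuotientAddGroup.mk (⟨_, h5⟩ : T) : T ⧸ DT).out : T) : G) -
        (g - lift v - 2 • g') := by
      have h9 : 2 • t = (QuotientAddGroup.mk (⟨_, h5⟩ : T) : T ⧸ DT).out - ⟨_, h5⟩ := ht
      have h10 := congrArg (fun z : T => (z : G)) h9
      simpa using h10
    refine ⟨(t : G) - g', ?_⟩
    show 2 • ((t : G) - g') = _
    rw [smul_sub, h8]
    abel
  have hfq : Finite (T ⧸ DT) := inferInstance
  have hfG : Finite (G ⧸ D) := Finite.of_surjective Φ hΦ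
  refine ⟨hfG, ?_⟩
  have h1 := Nat.card_le_card_of_surjective Φ hΦ
  rw [Nat.card_prod, idx_fin T] at h1
  refine h1.trans ?_
  have h2 : Nat.card (Fin r → ZMod 2) = 2 ^ Module.finrank ℤ G := by
    rw [Nat.card_eq_fintype_card, Fintype.card_fun, ZMod.card, Fintype.card_fin, ← hr]
  rw [h2]
  refine Nat.mul_le_mul_left _ ?_
  have : Fintype (nsmulAddMonoidHom 2 : T →+ T).ker := Fintype.ofFinite _
  have h3 := hn (Finset.univ.image (fun t : (nsmulAddMonoidHom 2 : T →+ T).ker => ((t : T) : G)))
    (by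
      intro g hg
      obtain ⟨t, _, rfl⟩ := Finset.mem_image.1 hg
      have h4 : 2 • (t : T) = 0 := t.2
      have h5 := congrArg (fun z : T => (z : G)) h4
      rw [two_nsmul] at h5
      simpa using h5)
  rw [Finset.card_image_of_injective] at h3
  · rw [Nat.card_eq_fintype_card]
    exact h3
  · intro t t' h
    exact Subtype.ext (Subtype.ext h)

end Pool.Agent.U409.LS
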