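import Pool.Agent.U409.LS.Glob
import Pool.Agent.U409.LS.Grp

/-!
# The number of the classes in the Tate-Shafarevich group
-/

set_option autoImplicit false

namespace Pool.Agent.U409.LS

open WeierstrassCurve
open Pool.Agent.W262.SH (QB Pt act IsCoc IsCob LocTriv shaCoc cob Sha E)
open Pool.Agent.TH841.SH (IsR)
open Pool.Agent.TH841.SH.D (ShaTor rk)
open Pool.Agent.U409.SH (isR)

open scoped Classical

/-- the number of the points of order two -/
lemma two_tor {a b : ℤ} (S : Finset (Pt (E a b) ℚ)) (hS : ∀ g ∈ S, g + g = 0) : S.card ≤ 4 := by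
  have hR := (isR a b).base ℚ
  have h1 : S ⊆ {0} ∪ ((if h : ((E a b).baseChange ℚ).toAffine.Nonsingular
      (algebraMap ℚ ℚ 0) 0 then {Affine.Point.some _ _ h} else ∅) ∪
      ((if h : ((E a b).baseChange ℚ).toAffine.Nonsingular
      (algebraMap ℚ ℚ a) 0 then {Affine.Point.some _ _ h} else ∅) ∪
      (if h : ((E a b).baseChange ℚ).toAffine.Nonsingular
      (algebraMap ℚ ℚ b) 0 then {Affine.Point.some _ _ h} else ∅))) := by
    intro g hg
    rw [Finset.mem_union, Finset.mem_union, Finset.mem_union, Finset.mem_singleton]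
    rcases hR.tors two_ne_zero (hS g hg) with h | ⟨h, rfl⟩ | ⟨h, rfl⟩ | ⟨h, rfl⟩
    · exact Or.inl h
    · right; left
      rw [dif_pos h]
      exact Finset.mem_singleton_self _
    · right; right; left
      rw [dif_pos h]
      exact Finset.mem_singleton_self _
    · right; right; right
      rw [dif_pos h]
      exact Finset.mem_singleton_self _
  have h2 : ∀ (e : ℚ), (if h : ((E a b).baseChange ℚ).toAffine.Nonsingular
      e 0 then ({Affine.Point.some _ _ h} : Finset (Pt (E a b) ℚ)) else ∅).card ≤ 1 := by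
    intro e
    split_ifs
    · exact le_rfl
    · exact Nat.zero_le _
  refine (Finset.card_le_card h1).trans ?_
  refine (Finset.card_union_le _ _).trans ?_
  rw [Finset.card_singleton]
  have h3 := Finset.card_union_le (if h : ((E a b).baseChange ℚ).toAffine.Nonsingular
      (algebraMap ℚ ℚ 0) 0 then ({Affine.Point.some _ _ h} : Finset (Pt (E a b) ℚ)) else ∅)
      ((if h : ((E a b).baseChange ℚ).toAffine.Nonsingular
      (algebraMap ℚ ℚ a) 0 then ({Affine.Point.some _ _ h} : Finset (Pt (E a b) ℚ)) else ∅) ∪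
      (if h : ((E a b).baseChange ℚ).toAffine.Nonsingular
      (algebraMap ℚ ℚ b) 0 then {Affine.Point.some _ _ h} else ∅))
  have h4 := Finset.card_union_le (if h : ((E a b).baseChange ℚ).toAffine.Nonsingular
      (algebraMap ℚ ℚ a) 0 then ({Affine.Point.some _ _ h} : Finset (Pt (E a b) ℚ)) else ∅)
      (if h : ((E a b).baseChange ℚ).toAffine.Nonsingular
      (algebraMap ℚ ℚ b) 0 then {Affine.Point.some _ _ h} else ∅)
  have h5 := h2 (algebraMap ℚ ℚ 0)
  have h6 := h2 (algebraMap ℚ ℚ a)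
  have h7 := h2 (algebraMap ℚ ℚ b)
  omega

/-- the order of `E(ℚ) / 2 E(ℚ)` -/
lemma quot_E {a b : ℤ} (ha : a ≠ 0) (hb : b ≠ 0) (hab : a ≠ b) :
    Finite (Pt (E a b) ℚ ⧸ (nsmulAddMonoidHom 2 : Pt (E a b) ℚ →+ Pt (E a b) ℚ).range) ∧
    Nat.card (Pt (E a b) ℚ ⧸ (nsmulAddMonoidHom 2 : Pt (E a b) ℚ →+ Pt (E a b) ℚ).range) ≤
      4 * 2 ^ rk (E a b) := by
  have hW : (E a b).baseChange ℚ = E a b := by
    show (E a b).map (algebraMap ℚ ℚ) = E a b
    exact WeierstrassCurve.map_id _
  have hfg : AddGroup.FG (Pt (E a b) ℚ) := by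
    have h7 : AddGroup.FG (E a b).toAffine.Point := (Pool.Agent.W214.RK.half a b ha hb hab).1
    show AddGroup.FG ((E a b).baseChange ℚ).toAffine.Point
    rw [hW]
    exact h7
  have h8 : rk (E a b) = Module.finrank ℤ (Pt (E a b) ℚ) := by
    show Module.finrank ℤ (E a b).toAffine.Point =
      Module.finrank ℤ ((E a b).baseChange ℚ).toAffine.Point
    rw [hW]
  obtain ⟨h1, h2⟩ := quot_le (Pt (E a b) ℚ) hfg 4 (fun S hS => two_tor S hS)
  refine ⟨h1, ?_⟩
  rw [h8, mul_comm]
  exact h2

lemma ok_ab {a b : ℤ} (ha : a ≠ 0) (hb : b ≠ 0) (hab : a ≠ b) : Ok (-(a + b)) (a * b) where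
  hB := mul_ne_zero ha hb
  hD := by
    have h1 : (-(a + b)) ^ 2 - 4 * (a * b) = (a - b) ^ 2 := by ring
    rw [h1]
    exact pow_ne_zero 2 (sub_ne_zero.2 hab)

lemma sq_canc {x y z : ℚ} (hz : z ≠ 0) (h1 : IsSquare (x * z)) (h2 : IsSquare (y * z)) :
    IsSquare (x * y) := by
  obtain ⟨u, hu⟩ := h1
  obtain ⟨v, hv⟩ := h2
  refine ⟨u * v / z, ?_⟩
  field_simp
  linear_combination y * z * hu + u ^ 2 * hv

/-- the number of the integers that give the same class -/
theorem fibre {a b : ℤ} (ha : a ≠ 0) (hb : b ≠ 0) (hab : a ≠ b) (K : Finset ℤ)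
    (hK : ∀ c ∈ K, Squarefree c) (g : ℤ → QB) (hg : ∀ c, IsRt c (g c)) (c0 : ℤ)
    (hc0 : Squarefree c0)
    (hcob : ∀ c ∈ K, IsCob (Wc (-(a + b)) (a * b))
      (fun σ => fs (ok_ab ha hb hab) (g c) σ - fs (ok_ab ha hb hab) (g c0) σ)) :
    K.card ≤ 2 + 4 * 2 ^ rk (E a b) := by
  obtain ⟨hfin, hcard⟩ := quot_E ha hb hab
  set D := (nsmulAddMonoidHom 2 : Pt (E a b) ℚ →+ Pt (E a b) ℚ).range with hD
  have : Fintype (Pt (E a b) ℚ ⧸ D) := Fintype.ofFinite _
  have hinjQ : Function.Injective (algebraMap ℚ ℚ) := (algebraMap ℚ ℚ).injective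
  have hR := (isR a b).base ℚ
  have ha' : (0 : ℚ) ≠ (a : ℚ) := fun h => ha (by exact_mod_cast h.symm)
  have hb' : (0 : ℚ) ≠ (b : ℚ) := fun h => hb (by exact_mod_cast h.symm)
  have hab' : (a : ℚ) ≠ (b : ℚ) := fun h => hab (by exact_mod_cast h)
  -- the points
  have key : ∀ c ∈ K, IsSquare ((c : ℚ) * c0) ∨ IsSquare ((c : ℚ) * (c0 * (a * b))) ∨
      ∃ (x y : ℚ) (hn : ((E a b).baseChange ℚ).toAffine.Nonsingular x y), x ≠ 0 ∧
        IsSquare ((c : ℚ) * (c0 * x)) := by
    intro c hc
    rcases glob (ok_ab ha hb hab) (hK c hc).ne_zero hc0.ne_zero (hg c) (hg c0) (hcob c hc) with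
      h | h | ⟨x, y, hx, hxy, h⟩
    · left
      push_cast at h
      exact h
    · right; left
      push_cast at h
      rwa [mul_assoc] at h
    · right; right
      refine ⟨x, y, ?_, hx, ?_⟩
      · refine hR.nons two_ne_zero (hinjQ.ne ha') (hinjQ.ne hb') (hinjQ.ne hab') ?_
        rw [hxy]
        push_cast
        show x * (x ^ 2 + -((a : ℚ) + b) * x + a * b) = (x - 0) * (x - a) * (x - b)
        ring
      · push_cast at h
        have e : (c : ℚ) * (c0 * x) = x * (c * c0) := by ring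
        rw [e]
        exact h
  let Φ : ℤ → Bool ⊕ (Pt (E a b) ℚ ⧸ D) := fun c =>
    if IsSquare ((c : ℚ) * c0) then Sum.inl true else
    if IsSquare ((c : ℚ) * (c0 * (a * b))) then Sum.inl false else
    if h : ∃ (x y : ℚ) (hn : ((E a b).baseChange ℚ).toAffine.Nonsingular x y), x ≠ 0 ∧
        IsSquare ((c : ℚ) * (c0 * x)) then
      Sum.inr (QuotientAddGroup.mk (Affine.Point.some h.choose h.choose_spec.choose
        h.choose_spec.choose_spec.choose : Pt (E a b) ℚ)) else Sum.inl true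
  have hc00 : (c0 : ℚ) ≠ 0 := Int.cast_ne_zero.2 hc0.ne_zero
  have hinj : Set.InjOn Φ (K : Set ℤ) := by
    intro c hc d hd hcd
    have hc' := hK c hc
    have hd' := hK d hd
    have h0 : (c : ℚ) ≠ 0 := Int.cast_ne_zero.2 hc'.ne_zero
    have h0' : (d : ℚ) ≠ 0 := Int.cast_ne_zero.2 hd'.ne_zero
    apply Pool.Agent.U409.SH.eq_of_sq hc' hd'
    push_cast
    by_cases h1 : IsSquare ((c : ℚ) * c0)
    · have e1 : Φ c = Sum.inl true := if_pos h1
      by_cases h2 : IsSquare ((d : ℚ) * c0)
      · exact sq_canc hc00 h1 h2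
      · exfalso
        rw [e1] at hcd
        have e2 : Φ d = _ := if_neg h2
        rw [e2] at hcd
        by_cases h3 : IsSquare ((d : ℚ) * (c0 * (a * b)))
        · rw [if_pos h3] at hcd
          exact absurd (Sum.inl.inj hcd) (by decide)
        · rw [if_neg h3, dif_pos (((key d hd).resolve_left h2).resolve_left h3)] at hcd
          exact absurd hcd (by simp)
    · have e1 : Φ c = _ := if_neg h1
      rw [e1] at hcd
      by_cases h2 : IsSquare ((c : ℚ) * (c0 * (a * b)))
      · rw [if_pos h2] at hcd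
        by_cases h3 : IsSquare ((d : ℚ) * c0)
        · have e2 : Φ d = Sum.inl true := if_pos h3
          rw [e2] at hcd
          exact absurd (Sum.inl.inj hcd) (by decide)
        · have e2 : Φ d = _ := if_neg h3
          rw [e2] at hcd
          by_cases h4 : IsSquare ((d : ℚ) * (c0 * (a * b)))
          · exact sq_canc (mul_ne_zero hc00 (mul_ne_zero ha'.symm hb'.symm)) h2 h4
          · rw [if_neg h4, dif_pos (((key d hd).resolve_left h3).resolve_left h4)] at hcd
            exact absurd hcd (by simp)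
      · rw [if_neg h2] at hcd
        have h5 := ((key c hc).resolve_left h1).resolve_left h2
        rw [dif_pos h5] at hcd
        by_cases h3 : IsSquare ((d : ℚ) * c0)
        · have e2 : Φ d = Sum.inl true := if_pos h3
          rw [e2] at hcd
          exact absurd hcd (by simp)
        · have e2 : Φ d = _ := if_neg h3
          rw [e2] at hcd
          by_cases h4 : IsSquare ((d : ℚ) * (c0 * (a * b)))
          · rw [if_pos h4] at hcd
            exact absurd hcd (by simp)
          · have h6 := ((key d hd).resolve_left h3).resolve_left h4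
            rw [if_neg h4, dif_pos h6] at hcd
            have h7 := Sum.inr.inj hcd
            rw [QuotientAddGroup.eq_iff_sub_mem] at h7
            obtain ⟨U, hU⟩ := h7
            have h8 := sq_class ha hb hab _ _ U hU.symm
            have k1 := h5.choose_spec.choose_spec.choose_spec
            have k2 := h6.choose_spec.choose_spec.choose_spec
            have h9 : IsSquare ((c : ℚ) * h6.choose * c0) := by
              have h10 := sq_canc (x := (c : ℚ) * c0) (y := h6.choose) (z := h5.choose) k1.1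
                (by rw [mul_assoc]; exact k1.2) (by rw [mul_comm]; exact h8)
              have e3 : (c : ℚ) * h6.choose * c0 = (c : ℚ) * c0 * h6.choose := by ring
              rw [e3]
              exact h10
            refine sq_canc (z := c0 * h6.choose) (mul_ne_zero hc00 k2.1) ?_ k2.2
            have e4 : (c : ℚ) * (c0 * h6.choose) = (c : ℚ) * h6.choose * c0 := by ring
            rw [e4]
            exact h9
  have h1 : K.card ≤ Fintype.card (Bool ⊕ (Pt (E a b) ℚ ⧸ D)) := by
    rw [← Finset.card_univ]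
    exact Finset.card_le_card_of_injOn Φ (fun _ _ => Finset.mem_univ _) hinj
  rw [Fintype.card_sum, Fintype.card_bool, ← Nat.card_eq_fintype_card] at h1
  exact h1.trans (Nat.add_le_add_left hcard 2)

/-- the number of the classes -/
theorem classes {a b : ℤ} (ha : a ≠ 0) (hb : b ≠ 0) (hab : a ≠ b) (K : Finset ℤ)
    (hK : ∀ c ∈ K, Squarefree c)
    (hloc : ∀ c ∈ K, ∀ s, IsRt c s → (∀ (p : ℕ) [Fact p.Prime],
      LocTriv (Wc (-(a + b)) (a * b)) ℚ_[p] (fs (ok_ab ha hb hab) s)) ∧
      LocTriv (Wc (-(a + b)) (a * b)) ℝ (fs (ok_ab ha hb hab) s)) :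
    (K.card : ℕ∞) ≤ (2 + 4 * 2 ^ rk (E a b) : ℕ) * ENat.card (ShaTor (Wc (-(a + b)) (a * b)) 2) := by
  have he : ENat.card (ShaTor (Wc (-(a + b)) (a * b)) 2) =
      ENat.card {c : Sha (Wc (-(a + b)) (a * b)) // c + c = 0} :=
    ENat.card_congr (Pool.Agent.U409.SH.torEquiv _)
  rw [he]
  by_cases hfin : Finite {c : Sha (Wc (-(a + b)) (a * b)) // c + c = 0}
  swap
  · have hinf : Infinite {c : Sha (Wc (-(a + b)) (a * b)) // c + c = 0} := not_finite_iff_infinite.1 hfin
    rw [ENat.card_eq_top_of_infinite]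
    rw [ENat.mul_top]
    · exact le_top
    · simp
  rw [ENat.card_eq_coe_natCard]
  have := Fintype.ofFinite {c : Sha (Wc (-(a + b)) (a * b)) // c + c = 0}
  set h := ok_ab ha hb hab with hh
  choose g hg using rt_ex
  -- the classes
  have hmem : ∀ c ∈ K, fs h (g c) ∈ shaCoc (Wc (-(a + b)) (a * b)) := by
    intro c hc
    exact ⟨fs_coc h (hK c hc).ne_zero (hg c), (hloc c hc _ (hg c)).1, (hloc c hc _ (hg c)).2⟩
  let Ψ : ℤ → {c : Sha (Wc (-(a + b)) (a * b)) // c + c = 0} := fun c =>
    if hc : fs h (g c) ∈ shaCoc (Wc (-(a + b)) (a * b)) then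
      ⟨QuotientAddGroup.mk ⟨fs h (g c), hc⟩, by
        rw [← QuotientAddGroup.mk_add, QuotientAddGroup.eq_zero_iff,
          AddSubgroup.mem_addSubgroupOf]
        refine ⟨0, fun σ => ?_⟩
        rw [map_zero, sub_zero]
        exact fs_two h _ σ⟩
    else ⟨0, add_zero 0⟩
  have h1 : K.card ≤ (2 + 4 * 2 ^ rk (E a b)) * (K.image Ψ).card := by
    apply Finset.card_le_mul_card_image
    intro y hy
    obtain ⟨c0, hc0, hc0'⟩ := Finset.mem_image.1 hy
    apply fibre ha hb hab _ (fun c hc => hK c (Finset.mem_filter.1 hc).1) g hg c0 (hK c0 hc0)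
    intro c hc
    rw [Finset.mem_filter] at hc
    have e1 : Ψ c = Ψ c0 := by rw [hc.2, hc0']
    have e2 : Ψ c = _ := dif_pos (hmem c hc.1)
    have e3 : Ψ c0 = _ := dif_pos (hmem c0 hc0)
    rw [e2, e3, Subtype.mk.injEq, QuotientAddGroup.eq_iff_sub_mem,
      AddSubgroup.mem_addSubgroupOf] at e1
    exact e1
  have h2 : (K.image Ψ).card ≤ Nat.card {c : Sha (Wc (-(a + b)) (a * b)) // c + c = 0} := by
    rw [Nat.card_eq_fintype_card]
    exact Finset.card_le_univ _
  exact_mod_cast h1.trans (Nat.mul_le_mul_left _ h2)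

end Pool.Agent.U409.LS
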