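import Pool.Agent.U409.LS.Loc
import Pool.Agent.U409.LS.Fib

/-!
# Many everywhere locally soluble quartics
-/

set_option autoImplicit false

namespace Pool.Agent.U409.LS

open Finset

/-- the kernel of a homomorphism from the subsets of `G` to an elementary abelian 2-group -/
theorem la (M : Type) [CommGroup M] [Fintype M] [DecidableEq M] (hM : ∀ m : M, m * m = 1)
    (G : Finset ℕ) (c : ℕ → M) :
    2 ^ G.card ≤ Fintype.card M * (G.powerset.filter (fun S => ∏ p ∈ S, c p = 1)).card := by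
  have h1 : G.powerset.card = ∑ m : M, (G.powerset.filter (fun S => ∏ p ∈ S, c p = m)).card :=
    card_eq_sum_card_fiberwise (fun _ _ => mem_univ _)
  rw [card_powerset] at h1
  rw [h1, ← card_univ, ← smul_eq_mul, ← sum_const]
  refine sum_le_sum fun m _ => ?_
  rcases (G.powerset.filter (fun S => ∏ p ∈ S, c p = m)).eq_empty_or_nonempty with h2 | ⟨S0, h2⟩
  · rw [h2, card_empty]
    exact Nat.zero_le _
  rw [mem_filter, mem_powerset] at h2
  have hsd : ∀ S T : Finset ℕ, ∏ p ∈ symmDiff S T, c p = (∏ p ∈ S, c p) * ∏ p ∈ T, c p := by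
    intro S T
    have e1 : ∏ p ∈ symmDiff S T, c p = (∏ p ∈ S \ T, c p) * ∏ p ∈ T \ S, c p := by
      rw [symmDiff_def]
      exact prod_union disjoint_sdiff_sdiff
    have e2 : ∏ p ∈ S, c p = (∏ p ∈ S \ T, c p) * ∏ p ∈ S ∩ T, c p := by
      rw [← prod_union (disjoint_sdiff_inter S T)]
      rw [sdiff_union_inter]
    have e3 : ∏ p ∈ T, c p = (∏ p ∈ T \ S, c p) * ∏ p ∈ S ∩ T, c p := by
      rw [inter_comm, ← prod_union (disjoint_sdiff_inter T S)]
      rw [sdiff_union_inter]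
    rw [e1, e2, e3]
    have e4 := hM (∏ p ∈ S ∩ T, c p)
    calc (∏ p ∈ S \ T, c p) * ∏ p ∈ T \ S, c p
        = (∏ p ∈ S \ T, c p) * (∏ p ∈ T \ S, c p) *
          ((∏ p ∈ S ∩ T, c p) * ∏ p ∈ S ∩ T, c p) := by rw [e4, mul_one]
      _ = _ := mul_mul_mul_comm _ _ _ _
  refine card_le_card_of_injOn (fun S => symmDiff S S0) ?_ ?_
  · intro S hS
    rw [mem_coe, mem_filter, mem_powerset] at hS ⊢
    refine ⟨?_, ?_⟩
    · intro x hx
      rcases mem_symmDiff.1 hx with h | h
      · exact hS.1 h.1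
      · exact h2.1 h.1
    · rw [hsd, hS.2, h2.2, hM]
  · intro S _ T _ h
    exact symmDiff_left_injective S0 h

/-- the Legendre symbol as a unit -/
noncomputable def lu (q : ℕ) (n : ℤ) : ℤˣ :=
  if h : q.Prime then (if @legendreSym q ⟨h⟩ n = -1 then -1 else 1) else 1

lemma lu_eq {q : ℕ} [hq : Fact q.Prime] {n : ℤ} (hn : ¬ (q : ℤ) ∣ n) :
    ((lu q n : ℤˣ) : ℤ) = legendreSym q n := by
  unfold lu
  rw [dif_pos hq.out]
  rcases leg_pm hn with h | h
  · rw [h, if_neg (by norm_num), Units.val_one]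
  · rw [h, if_pos rfl, Units.val_neg, Units.val_one]

/-- the coefficients of the conditions -/
noncomputable def cq (r d : ℤ) (q p : ℕ) : ℤˣ :=
  if q = p then lu q (r * (d / q)) else lu q p

/-- the unit modulo `8` -/
noncomputable def u8 (p : ℕ) : (ZMod 8)ˣ :=
  if h : Nat.Coprime p 8 then ZMod.unitOfCoprime p h else 1

lemma u8_sq (m : (ZMod 8)ˣ) : m * m = 1 := by
  revert m
  decide

lemma card_u8 : Fintype.card (ZMod 8)ˣ = 4 := by decide

section

variable {r s d : ℤ} {G Bd : Finset ℕ}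

/-- the hypotheses on the sets of primes -/
structure Hyp (r s d : ℤ) (G Bd : Finset ℕ) : Prop where
  hr : r ≠ 0
  hs : s ≠ 0
  hrs : r ≠ s
  hd : d ≠ 0
  hp : ∀ p ∈ G, p.Prime
  h2 : ∀ p ∈ G, p ≠ 2
  hG : ∀ p ∈ G, ¬ (p : ℤ) ∣ r ∧ ¬ (p : ℤ) ∣ s ∧ ¬ (p : ℤ) ∣ r - s
  hGd : ∀ p ∈ G, (p : ℤ) ∣ d ∧ ¬ (p : ℤ) ^ 2 ∣ d
  hB : ∀ p ∈ Bd, p.Prime ∧ p ≠ 2 ∧ p ∉ G
  hcov : ∀ p : ℕ, p.Prime → p ≠ 2 → (p : ℤ) ∣ r * s * (r - s) * d → p ∈ G ∨ p ∈ Bd

lemma prod_dvd (h : Hyp r s d G Bd) {S : Finset ℕ} (hS : S ⊆ G) : ((∏ p ∈ S, p : ℕ) : ℤ) ∣ d := by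
  have h1 : (∏ p ∈ S, p) ∣ d.natAbs :=
    prod_primes_dvd _ (fun p hp => Nat.prime_iff.1 (h.hp p (hS hp)))
      (fun p hp => Int.natCast_dvd.1 (h.hGd p (hS hp)).1)
  exact Int.natCast_dvd.2 h1

lemma not_dvd_prod (h : Hyp r s d G Bd) {S : Finset ℕ} (hS : S ⊆ G) {q : ℕ} (hq : q.Prime)
    (hqS : q ∉ S) : ¬ (q : ℤ) ∣ ((∏ p ∈ S, p : ℕ) : ℤ) := by
  intro hd
  have h1 : q ∣ ∏ p ∈ S, p := by exact_mod_cast hd
  obtain ⟨p, hp, hpd⟩ := (Nat.Prime.prime hq).exists_mem_finset_dvd h1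
  have h2 := (Nat.prime_dvd_prime_iff_eq hq (h.hp p (hS hp))).1 hpd
  exact hqS (h2 ▸ hp)

lemma prod_sqf (h : Hyp r s d G Bd) {S : Finset ℕ} (hS : S ⊆ G) :
    Squarefree ((∏ p ∈ S, p : ℕ) : ℤ) := by
  rw [Int.squarefree_natCast]
  refine Finset.squarefree_prod_of_pairwise_isCoprime (fun p hp q hq hpq => ?_)
    (fun p hp => (h.hp p (hS hp)).squarefree)
  exact Nat.coprime_iff_isRelPrime.1
    ((Nat.coprime_primes (h.hp p (hS hp)) (h.hp q (hS hq))).2 hpq)

/-- multiplicativity -/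
lemma leg_prod {q : ℕ} [hq : Fact q.Prime] (S : Finset ℕ) :
    legendreSym q ((∏ p ∈ S, p : ℕ) : ℤ) = ∏ p ∈ S, legendreSym q (p : ℤ) := by
  classical
  induction S using Finset.induction_on with
  | empty => simp [legendreSym.at_one]
  | insert a S ha ih =>
    rw [prod_insert ha, prod_insert ha, ← ih, Nat.cast_mul, legendreSym.mul]

lemma cond_bad (h : Hyp r s d G Bd) {S : Finset ℕ} (hS : S ⊆ G) {q : ℕ} [hq : Fact q.Prime]
    (hqS : q ∉ S) (h1 : ∏ p ∈ S, cq r d q p = 1) :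
    legendreSym q ((∏ p ∈ S, p : ℕ) : ℤ) = 1 := by
  rw [leg_prod]
  have h2 : ∀ p ∈ S, legendreSym q (p : ℤ) = ((cq r d q p : ℤˣ) : ℤ) := by
    intro p hp
    have hne : q ≠ p := fun e => hqS (e ▸ hp)
    unfold cq
    rw [if_neg hne, lu_eq]
    intro hd
    have h3 : q ∣ p := by exact_mod_cast hd
    exact hne ((Nat.prime_dvd_prime_iff_eq hq.out (h.hp p (hS hp))).1 h3)
  rw [prod_congr rfl h2]
  have h3 := congrArg (fun u : ℤˣ => (u : ℤ)) h1
  simpa using h3

lemma cond_good (h : Hyp r s d G Bd) {S : Finset ℕ} (hS : S ⊆ G) {q : ℕ} [hq : Fact q.Prime]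
    (hqS : q ∈ S) (h1 : ∏ p ∈ S, cq r d q p = 1) {k : ℤ}
    (hk : d = ((∏ p ∈ S, p : ℕ) : ℤ) * k) :
    legendreSym q (r * k) = 1 := by
  classical
  have hqG := hS hqS
  have hS' : S.erase q ⊆ G := (erase_subset _ _).trans hS
  have hq0 : (q : ℤ) ≠ 0 := by exact_mod_cast hq.out.ne_zero
  rw [← mul_prod_erase S _ hqS] at h1
  rw [← mul_prod_erase S _ hqS] at hk
  set c' : ℤ := ((∏ p ∈ S.erase q, p : ℕ) : ℤ) with hc'
  have hk' : d = q * (c' * k) := by
    rw [hk]
    push_cast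
    rw [hc']
    push_cast
    ring
  have hdq : d / q = c' * k := by
    rw [hk']
    exact Int.mul_ediv_cancel_left _ hq0
  have hck : ¬ (q : ℤ) ∣ c' * k := by
    intro h2
    apply (h.hGd q hqG).2
    rw [hk', pow_two]
    exact mul_dvd_mul_left _ h2
  have hpi : Prime (q : ℤ) := Nat.prime_iff_prime_int.1 hq.out
  have hrck : ¬ (q : ℤ) ∣ r * (c' * k) := fun h2 =>
    (hpi.dvd_or_dvd h2).elim (h.hG q hqG).1 hck
  have hc0 : ¬ (q : ℤ) ∣ c' := fun h2 => hck (h2.mul_right _)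
  have h2 : ((∏ p ∈ S.erase q, cq r d q p : ℤˣ) : ℤ) = legendreSym q c' := by
    rw [hc', leg_prod, Units.coe_prod]
    refine prod_congr rfl fun p hp => ?_
    have hne : q ≠ p := (ne_of_mem_erase hp).symm
    unfold cq
    rw [if_neg hne, lu_eq]
    intro hd
    have h3 : q ∣ p := by exact_mod_cast hd
    exact hne ((Nat.prime_dvd_prime_iff_eq hq.out (h.hp p (hS' hp))).1 h3)
  have h3 : ((cq r d q q : ℤˣ) : ℤ) = legendreSym q (r * (c' * k)) := by
    unfold cq
    rw [if_pos rfl, hdq, lu_eq hrck]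
  have h4 := congrArg (fun u : ℤˣ => (u : ℤ)) h1
  simp only [Units.val_mul, Units.val_one] at h4
  rw [h2, h3] at h4
  have h5 : legendreSym q (r * (c' * k)) = legendreSym q (r * k) * legendreSym q c' := by
    rw [← legendreSym.mul]
    congr 1
    ring
  have h6 : legendreSym q c' * legendreSym q c' = 1 := by
    rcases leg_pm hc0 with h | h <;> rw [h] <;> norm_num
  rw [h5, mul_assoc, h6, mul_one] at h4
  exact h4

open scoped Classical in
/-- the primes of `G` for which `r s` is a residue -/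
noncomputable def Gp (r s : ℤ) (G : Finset ℕ) : Finset ℕ :=
  G.filter (fun q => lu q (r * s) = 1)

open scoped Classical in
/-- the primes of `G` for which `r s` is a non-residue -/
noncomputable def Gm (r s : ℤ) (G : Finset ℕ) : Finset ℕ :=
  G.filter (fun q => ¬ lu q (r * s) = 1)

open scoped Classical in
/-- many soluble quartics -/
theorem ker (h : Hyp r s d G Bd) : ∃ K : Finset ℤ, (∀ c ∈ K, Squarefree c) ∧
    (∀ c ∈ K, ∃ k : ℤ, d = c * k ∧ (∀ (p : ℕ) [Fact p.Prime], Sol ℚ_[p] r s c k) ∧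
      Sol ℝ r s c k) ∧
    2 ^ (Gm r s G).card ≤ 4 * 2 ^ Bd.card * K.card := by
  classical
  set Q : Finset ℕ := Gp r s G ∪ Bd with hQ
  set f : ℕ → (Q → ℤˣ) × (ZMod 8)ˣ := fun p => (fun q => cq r d q.1 p, u8 p) with hf
  have h1 := la ((Q → ℤˣ) × (ZMod 8)ˣ) (fun m => Prod.ext (funext fun q => by
      show m.1 q * m.1 q = 1
      rcases Int.units_eq_one_or (m.1 q) with e | e <;> rw [e] <;> rfl) (u8_sq m.2)) G f
  set KS := G.powerset.filter (fun S => ∏ p ∈ S, f p = 1) with hKS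
  have hKS' : ∀ S ∈ KS, S ⊆ G ∧ (∀ q ∈ Q, ∏ p ∈ S, cq r d q p = 1) ∧ ∏ p ∈ S, u8 p = 1 := by
    intro S hS
    rw [hKS, mem_filter, mem_powerset] at hS
    obtain ⟨h2, h3⟩ := hS
    refine ⟨h2, fun q hq => ?_, ?_⟩
    · have h4 := congrArg ((Pi.evalMonoidHom (fun _ : Q => ℤˣ) ⟨q, hq⟩).comp
        (MonoidHom.fst (Q → ℤˣ) (ZMod 8)ˣ)) h3
      rw [map_prod, map_one] at h4
      exact h4
    · have h4 := congrArg (MonoidHom.snd (Q → ℤˣ) (ZMod 8)ˣ) h3
      rw [map_prod, map_one] at h4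
      exact h4
  refine ⟨KS.image (fun S => ((∏ p ∈ S, p : ℕ) : ℤ)), ?_, ?_, ?_⟩
  · intro c hc
    obtain ⟨S, hS, rfl⟩ := mem_image.1 hc
    exact prod_sqf h (hKS' S hS).1
  · intro c hc
    obtain ⟨S, hS, rfl⟩ := mem_image.1 hc
    obtain ⟨hSG, hc1, hc8⟩ := hKS' S hS
    obtain ⟨k, hk⟩ := prod_dvd h hSG
    refine ⟨k, hk, ?_, ?_⟩
    · intro p hp
      have hpi : Prime (p : ℤ) := Nat.prime_iff_prime_int.1 hp.out
      by_cases hp2 : p = 2
      · subst hp2
        apply sol_two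
        have h3 : ((∏ p ∈ S, p : ℕ) : ZMod 8) = 1 := by
          have h4 := congrArg (fun u : (ZMod 8)ˣ => (u : ZMod 8)) hc8
          simp only [Units.coe_prod, Units.val_one] at h4
          rw [← h4, Nat.cast_prod]
          refine prod_congr rfl fun p hp => ?_
          have h5 : Nat.Coprime p 8 := by
            have h6 : Nat.Coprime p 2 :=
              (Nat.coprime_primes (h.hp p (hSG hp)) Nat.prime_two).2 (h.h2 p (hSG hp))
            exact Nat.Coprime.pow_right 3 h6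
          unfold u8
          rw [dif_pos h5, ZMod.coe_unitOfCoprime]
        have h4 : (((∏ p ∈ S, p : ℕ) : ℤ) : ZMod 8) = ((1 : ℤ) : ZMod 8) := by
          push_cast at h3 ⊢
          exact h3
        rw [ZMod.intCast_eq_intCast_iff] at h4
        exact h4
      · by_cases hpG : p ∈ G
        · -- primes of `G`
          have hck : ¬ (p : ℤ) ∣ ((∏ p ∈ S, p : ℕ) : ℤ) ∨ ¬ (p : ℤ) ∣ k := by
            by_contra hcon
            push Not at hcon
            apply (h.hGd p hpG).2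
            rw [hk, pow_two]
            exact mul_dvd_mul hcon.1 hcon.2
          have hrs' : ¬ (p : ℤ) ∣ r * s := fun h2 =>
            (hpi.dvd_or_dvd h2).elim (h.hG p hpG).1 (h.hG p hpG).2.1
          by_cases hlu : lu p (r * s) = 1
          · have hpQ : p ∈ Q := by
              rw [hQ, mem_union]
              left
              unfold Gp
              rw [mem_filter]
              exact ⟨hpG, hlu⟩
            by_cases hpS : p ∈ S
            · exact sol_root hp2 (Or.inl (cond_good h hSG hpS (hc1 p hpQ) hk))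
            · exact sol_sq hp2 (cond_bad h hSG hpS (hc1 p hpQ))
          · apply sol_neg hp2 _ hck
            rcases leg_pm hrs' with h2 | h2
            · exfalso
              apply hlu
              apply Units.ext
              rw [lu_eq hrs', h2, Units.val_one]
            · exact h2
        · by_cases hpB : p ∈ Bd
          · have hpQ : p ∈ Q := by
              rw [hQ, mem_union]
              exact Or.inr hpB
            exact sol_sq hp2 (cond_bad h hSG (fun h2 => hpG (hSG h2)) (hc1 p hpQ))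
          · have h2 : ¬ (p : ℤ) ∣ r * s * (r - s) * d := fun h2 =>
              (h.hcov p hp.out hp2 h2).elim hpG hpB
            have h3 : ¬ (p : ℤ) ∣ r := fun h3 => h2 (((h3.mul_right _).mul_right _).mul_right _)
            have h4 : ¬ (p : ℤ) ∣ s := fun h3 => h2 (((h3.mul_left _).mul_right _).mul_right _)
            have h5 : ¬ (p : ℤ) ∣ r - s := fun h3 => h2 ((h3.mul_left _).mul_right _)
            have h6 : ¬ (p : ℤ) ∣ d := fun h3 => h2 (h3.mul_left _)
            refine sol_good hp2 h3 h4 h5 (fun h7 => h6 ?_) (fun h7 => h6 ?_)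
            · rw [hk]
              exact h7.mul_right _
            · rw [hk]
              exact h7.mul_left _
    · apply sol_real
      have h2 : 0 < ∏ p ∈ S, p := prod_pos fun p hp => (h.hp p (hSG hp)).pos
      exact_mod_cast h2
  · have hinj : Set.InjOn (fun S : Finset ℕ => ((∏ p ∈ S, p : ℕ) : ℤ)) (KS : Set (Finset ℕ)) := by
      intro S hS T hT hST
      have hS' := (hKS' S hS).1
      have hT' := (hKS' T hT).1
      have hST' : ((∏ p ∈ S, p : ℕ) : ℤ) = ((∏ p ∈ T, p : ℕ) : ℤ) := hST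
      ext q
      constructor
      · intro hq
        by_contra hqT
        apply not_dvd_prod h hT' (h.hp q (hS' hq)) hqT
        rw [← hST']
        exact_mod_cast dvd_prod_of_mem (fun p => p) hq
      · intro hq
        by_contra hqT
        apply not_dvd_prod h hS' (h.hp q (hT' hq)) hqT
        rw [hST']
        exact_mod_cast dvd_prod_of_mem (fun p => p) hq
    rw [card_image_of_injOn hinj]
    have hcM : Fintype.card ((Q → ℤˣ) × (ZMod 8)ˣ) = 2 ^ Q.card * 4 := by
      rw [Fintype.card_prod, card_u8, Fintype.card_fun, Fintype.card_coe]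
      congr 2
    have hQc : Q.card ≤ (Gp r s G).card + Bd.card := card_union_le _ _
    have hGc : (Gp r s G).card + (Gm r s G).card = G.card := by
      unfold Gp Gm
      exact card_filter_add_card_filter_not _
    have h2 : 2 ^ (Gp r s G).card * 2 ^ (Gm r s G).card ≤
        2 ^ (Gp r s G).card * (4 * 2 ^ Bd.card * KS.card) := by
      calc 2 ^ (Gp r s G).card * 2 ^ (Gm r s G).card = 2 ^ G.card := by
            rw [← pow_add, hGc]
        _ ≤ Fintype.card ((Q → ℤˣ) × (ZMod 8)ˣ) * KS.card := h1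
        _ = 2 ^ Q.card * 4 * KS.card := by rw [hcM]
        _ ≤ 2 ^ ((Gp r s G).card + Bd.card) * 4 * KS.card := by
            gcongr
            norm_num
        _ = _ := by rw [pow_add]; ring
    exact Nat.le_of_mul_le_mul_left h2 (by positivity)

end

end Pool.Agent.U409.LS
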