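import Pool.Agent.U214.PT.Asm
import Pool.Agent.U409.LS.Ker

/-!
# The polynomial `f (X - √n) f (X + √n)`
-/

set_option autoImplicit false

namespace Pool.Agent.U409.LS

open Polynomial Finset

/-- `f (X + z) = P + z Q` if `z ^ 2 = n` -/
lemma split (n : ℤ) (f : ℤ[X]) : ∃ P Q : ℤ[X], ∀ (R : Type) [CommRing R] (z : R), z ^ 2 = (n : R) →
    (f.map (Int.castRingHom R)).comp (X + C z) =
      P.map (Int.castRingHom R) + C z * Q.map (Int.castRingHom R) := by
  induction f using Polynomial.induction_on' with
  | add f g hf hg =>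
    obtain ⟨P1, Q1, h1⟩ := hf
    obtain ⟨P2, Q2, h2⟩ := hg
    refine ⟨P1 + P2, Q1 + Q2, fun R _ z hz => ?_⟩
    rw [Polynomial.map_add, add_comp, h1 R z hz, h2 R z hz, Polynomial.map_add,
      Polynomial.map_add]
    ring
  | monomial k a =>
    induction k with
    | zero =>
      refine ⟨C a, 0, fun R _ z _ => ?_⟩
      rw [monomial_zero_left, Polynomial.map_C, C_comp, Polynomial.map_zero, mul_zero, add_zero]
    | succ k ih =>
      obtain ⟨P, Q, h⟩ := ih
      refine ⟨X * P + C n * Q, P + X * Q, fun R _ z hz => ?_⟩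
      have e : (monomial (k + 1) a : ℤ[X]) = X * monomial k a := by
        rw [X_mul_monomial]
      rw [e, Polynomial.map_mul, mul_comp, h R z hz, Polynomial.map_X, X_comp]
      have e2 : (C (n : R) : R[X]) = C z * C z := by
        rw [← C_mul, ← hz, pow_two]
      simp only [Polynomial.map_add, Polynomial.map_mul, Polynomial.map_X, Polynomial.map_C,
        Int.coe_castRingHom]
      rw [e2]
      ring

/-- the resolvent -/
lemma split_mul {n : ℤ} {f P Q : ℤ[X]} (h : ∀ (R : Type) [CommRing R] (z : R), z ^ 2 = (n : R) →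
    (f.map (Int.castRingHom R)).comp (X + C z) =
      P.map (Int.castRingHom R) + C z * Q.map (Int.castRingHom R)) (R : Type) [CommRing R] (z : R)
    (hz : z ^ 2 = (n : R)) : (P ^ 2 - C n * Q ^ 2).map (Int.castRingHom R) =
      (f.map (Int.castRingHom R)).comp (X + C z) * (f.map (Int.castRingHom R)).comp (X + C (-z)) := by
  rw [h R z hz, h R (-z) (by rw [neg_sq]; exact hz)]
  simp only [Polynomial.map_sub, Polynomial.map_mul, Polynomial.map_pow, Polynomial.map_C,
    Int.coe_castRingHom, C_neg]
  have e2 : (C (n : R) : R[X]) = C z * C z := by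
    rw [← C_mul, ← hz, pow_two]
  rw [e2]
  ring

section

variable {n : ℤ}

/-- the quadratic field -/
abbrev QF (n : ℤ) : Type := QuadraticAlgebra ℚ (n : ℚ) 0

variable [hn : Fact (∀ q : ℚ, q ^ 2 ≠ (n : ℚ) + 0 * q)]

lemma om_sq : (QuadraticAlgebra.omega : QF n) ^ 2 = ((n : ℤ) : QF n) := by
  rw [pow_two, QuadraticAlgebra.omega_mul_omega_eq_mk]
  rfl

lemma om_ne : (QuadraticAlgebra.omega : QF n) ≠ 0 := by
  intro h
  have := congrArg QuadraticAlgebra.im h
  simp at this

/-- a polynomial that is invariant under a translation -/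
lemma no_trans {K : Type} [Field K] [CharZero K] {F : K[X]} (hF : 0 < F.natDegree) {w : K}
    (hw : w ≠ 0) : F.comp (X + C w) ≠ F := by
  intro h
  have h1 : ∀ k : ℕ, F.eval ((k : K) * w) = F.eval 0 := by
    intro k
    induction k with
    | zero => simp
    | succ k ih =>
      rw [← ih]
      conv_rhs => rw [← h]
      rw [eval_comp, eval_add, eval_X, eval_C]
      congr 1
      push_cast
      ring
  have h2 : F = C (F.eval 0) := by
    apply eq_of_infinite_eval_eq
    apply Set.Infinite.mono (s := Set.range (fun k : ℕ => (k : K) * w))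
    · rintro _ ⟨k, rfl⟩
      show F.eval _ = (C (F.eval 0)).eval _
      rw [h1, eval_C]
    · apply Set.infinite_range_of_injective
      intro a b hab
      have := mul_right_cancel₀ hw hab
      exact_mod_cast this
  rw [h2, natDegree_C] at hF
  exact lt_irrefl _ hF

lemma comp_comp_add {K : Type} [Field K] (F : K[X]) (a b : K) :
    (F.comp (X + C a)).comp (X + C b) = F.comp (X + C (a + b)) := by
  rw [comp_assoc]
  congr 1
  rw [add_comp, X_comp, C_comp, C_add]
  ring

lemma irr_comp {K : Type} [Field K] {F : K[X]} (hF : Irreducible F) (a : K) :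
    Irreducible (F.comp (X + C a)) := by
  have h := (MulEquiv.irreducible_iff (algEquivAevalXAddC a)).2 hF
  have e : (algEquivAevalXAddC a) F = F.comp (X + C a) := by
    show aeval (X + C a) F = _
    rw [comp, aeval_def]
    rfl
  rw [e] at h
  exact h

/-- the resolvent is irreducible -/
theorem irr {f P Q : ℤ[X]} (hf : Irreducible (f.map (Int.castRingHom (QF n))))
    (hd : 0 < f.natDegree)
    (h : ∀ (R : Type) [CommRing R] (z : R), z ^ 2 = (n : R) →
      (f.map (Int.castRingHom R)).comp (X + C z) =
        P.map (Int.castRingHom R) + C z * Q.map (Int.castRingHom R)) :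
    Irreducible ((P ^ 2 - C n * Q ^ 2).map (Int.castRingHom ℚ)) := by
  set K := QF n with hK
  set w : K := QuadraticAlgebra.omega with hw
  have hw0 : w ≠ 0 := om_ne
  have hcz : CharZero K := inferInstance
  set F : K[X] := f.map (Int.castRingHom K) with hF
  have hFd : 0 < F.natDegree := by
    rw [hF, natDegree_map_eq_of_injective (RingHom.injective_int (Int.castRingHom K))]
    exact hd
  set f1 := F.comp (X + C w) with hf1
  set f2 := F.comp (X + C (-w)) with hf2
  have i1 : Irreducible f1 := irr_comp hf w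
  have i2 : Irreducible f2 := irr_comp hf (-w)
  have hmul : (P ^ 2 - C n * Q ^ 2).map (Int.castRingHom K) = f1 * f2 :=
    split_mul h K w om_sq
  have hmap : ((P ^ 2 - C n * Q ^ 2).map (Int.castRingHom ℚ)).map (algebraMap ℚ K) = f1 * f2 := by
    rw [Polynomial.map_map, ← hmul]
    congr 1
  -- the two factors are not associated
  have hnd : ¬ f1 ∣ f2 := by
    rintro ⟨g, hg⟩
    have hlc : ∀ a : K, (F.comp (X + C a)).leadingCoeff = F.leadingCoeff := by
      intro a
      rw [leadingCoeff_comp (by rw [natDegree_X_add_C]; exact one_ne_zero), leadingCoeff_X_add_C,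
        one_pow, mul_one]
    have hdg : ∀ a : K, (F.comp (X + C a)).natDegree = F.natDegree := by
      intro a
      rw [natDegree_comp, natDegree_X_add_C, mul_one]
    have hg0 : g ≠ 0 := by
      rintro rfl
      rw [mul_zero] at hg
      exact i2.ne_zero hg
    have e1 : g.natDegree = 0 := by
      have h1 := congrArg natDegree hg
      rw [natDegree_mul i1.ne_zero hg0, hf1, hf2, hdg, hdg] at h1
      omega
    obtain ⟨c, rfl⟩ := natDegree_eq_zero.1 e1
    have e2 : c = 1 := by
      have h1 := congrArg leadingCoeff hg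
      rw [leadingCoeff_mul, hf1, hf2, hlc, hlc, leadingCoeff_C] at h1
      have h2 : F.leadingCoeff ≠ 0 := leadingCoeff_ne_zero.2 hf.ne_zero
      exact (mul_left_cancel₀ h2 (by rw [← h1, mul_one])).symm
    subst e2
    rw [C_1, mul_one] at hg
    have h3 := congrArg (fun G : K[X] => G.comp (X + C w)) hg
    simp only [hf1, hf2] at h3
    rw [comp_comp_add, comp_comp_add, neg_add_cancel, C_0, add_zero, comp_X] at h3
    exact no_trans hFd (by
      intro h4
      have h5 : (2 : K) * w = 0 := by linear_combination h4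
      exact hw0 ((mul_eq_zero.1 h5).resolve_left two_ne_zero)) h3.symm
  -- conjugation
  let σ : K →+* K := starRingEnd K
  have hσw : σ w = -w := by
    show star (⟨0, 1⟩ : QF n) = -⟨0, 1⟩
    rw [QuadraticAlgebra.star_mk, QuadraticAlgebra.neg_mk]
    congr 1
    ring
  have hσf : f1.map σ = f2 := by
    rw [hf1, hf2, Polynomial.map_comp, Polynomial.map_add, Polynomial.map_X, Polynomial.map_C, hσw,
      hF, Polynomial.map_map]
    congr 2
    exact RingHom.ext_int _ _
  have hσq : ∀ u : ℚ[X], (u.map (algebraMap ℚ K)).map σ = u.map (algebraMap ℚ K) := by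
    intro u
    rw [Polynomial.map_map]
    congr 1
    exact Subsingleton.elim _ _
  have key : ∀ u v : ℚ[X], (P ^ 2 - C n * Q ^ 2).map (Int.castRingHom ℚ) = u * v →
      f1 ∣ u.map (algebraMap ℚ K) → IsUnit v := by
    intro u v huv hdu
    have h1 : f2 ∣ u.map (algebraMap ℚ K) := by
      have h2 := Polynomial.map_dvd σ hdu
      rw [hσf, hσq] at h2
      exact h2
    have hcop : IsCoprime f1 f2 := (Irreducible.coprime_iff_not_dvd i1).2 hnd
    have h3 : f1 * f2 ∣ u.map (algebraMap ℚ K) := hcop.mul_dvd hdu h1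
    rw [← hmap, huv, Polynomial.map_mul] at h3
    have hne : u.map (algebraMap ℚ K) * v.map (algebraMap ℚ K) ≠ 0 := by
      rw [← Polynomial.map_mul, ← huv, hmap]
      exact mul_ne_zero i1.ne_zero i2.ne_zero
    have hu0 : u.map (algebraMap ℚ K) ≠ 0 := left_ne_zero_of_mul hne
    obtain ⟨g, hg⟩ := h3
    have h4 : v.map (algebraMap ℚ K) * g = 1 := by
      apply mul_left_cancel₀ hu0
      rw [mul_one, ← mul_assoc]
      exact hg.symm
    have h5 : IsUnit (v.map (algebraMap ℚ K)) := IsUnit.of_mul_eq_one g h4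
    rw [isUnit_iff_degree_eq_zero] at h5 ⊢
    rw [degree_map] at h5
    exact h5
  refine ⟨fun hu => ?_, fun u v huv => ?_⟩
  · have h1 : IsUnit (f1 * f2) := by
      rw [← hmap]
      exact hu.map (mapRingHom (algebraMap ℚ K))
    exact i1.not_isUnit (isUnit_of_mul_isUnit_left h1)
  · have h1 : f1 ∣ u.map (algebraMap ℚ K) * v.map (algebraMap ℚ K) := by
      rw [← Polynomial.map_mul, ← huv, hmap]
      exact dvd_mul_right _ _
    rcases (irreducible_iff_prime.1 i1).dvd_or_dvd h1 with h2 | h2
    · exact Or.inr (key u v huv h2)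
    · exact Or.inl (key v u (by rw [huv, mul_comm]) h2)

end

end Pool.Agent.U409.LS
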