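import Pool.Agent.U214.PT.Mert
import Pool.Agent.U409.LS.Res
import Pool.Agent.U409.LS.Main

/-!
# The density of the primes for which `n` is a non-residue among the prime divisors of `f (t)`
-/

set_option autoImplicit false

namespace Pool.Agent.U409.LS

open Polynomial Finset
open Pool.Agent.H474R2.PG (rho PR Sg)
open Pool.Agent.H474R2.GE (mertens_rho)
open Pool.Agent.U214.PT (Sep rho_mul rho_C_mul dvd_of_sep clear mem_PR)

lemma sep_of_irr {g : ℤ[X]} (hg : Irreducible (g.map (Int.castRingHom ℚ))) : Sep g := by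
  have hinj : Function.Injective (Polynomial.map (Int.castRingHom ℚ)) :=
      map_injective _ Int.cast_injective
  obtain ⟨u, v, huv⟩ := PerfectField.separable_of_irreducible hg
  obtain ⟨m, u0, hm, hu0⟩ := clear u
  obtain ⟨n', v0, hn', hv0⟩ := clear v
  refine ⟨m * n', mul_ne_zero hm hn', C n' * u0, C m * v0, hinj ?_⟩
  simp only [Polynomial.map_add, Polynomial.map_mul, Polynomial.map_C, hu0, hv0,
    ← Polynomial.derivative_map, Int.coe_castRingHom, Int.cast_mul, C_mul]
  linear_combination (C (m : ℚ) * C (n' : ℚ)) * huv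

lemma rho_zmod (f : ℤ[X]) {p : ℕ} (hp : p.Prime) [NeZero p] [DecidableEq (ZMod p)] :
    rho f p = ((univ : Finset (ZMod p)).filter
      (fun a => (f.map (Int.castRingHom (ZMod p))).eval a = 0)).card := by
  have h1 : rho f p = ((Finset.range p).filter (fun a : ℕ =>
      (f.map (Int.castRingHom (ZMod p))).eval (a : ZMod p) = 0)).card := by
    unfold rho
    congr 1
    refine Finset.filter_congr (fun a _ => ?_)
    rw [Pool.Agent.H474R2.PG.dvd_iff_zmod]
    push_cast
    rfl
  rw [h1, Pool.Agent.H474R2.PG.card_range_zmod p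
    (fun a => (f.map (Int.castRingHom (ZMod p))).eval a = 0)]

/-- every root of `f` gives two roots of the resolvent -/
theorem rho_two {n : ℤ} {f h : ℤ[X]} (hs : Sep h)
    (hh : ∀ (R : Type) [CommRing R] (z : R), z ^ 2 = (n : R) → h.map (Int.castRingHom R) =
      (f.map (Int.castRingHom R)).comp (X + C z) * (f.map (Int.castRingHom R)).comp (X + C (-z))) :
    ∃ B : ℕ, ∀ p : ℕ, p.Prime → B < p → ¬ (p : ℤ) ∣ n → lu p n = 1 → 2 * rho f p ≤ rho h p := by
  classical
  obtain ⟨N, hN, U, V, hUV⟩ := hs
  refine ⟨N.natAbs + 2, fun p hp hB hpn hlu => ?_⟩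
  have hpf : Fact p.Prime := ⟨hp⟩
  have hNp : ¬ (p : ℤ) ∣ N := by
    intro h1
    have := Nat.le_of_dvd (Int.natAbs_pos.2 hN) (Int.natCast_dvd.1 h1)
    omega
  have hN0 : ((N : ℤ) : ZMod p) ≠ 0 := fun h0 => hNp ((ZMod.intCast_zmod_eq_zero_iff_dvd _ _).1 h0)
  have h20 : (2 : ZMod p) ≠ 0 := by
    intro h0
    have h1 : ((2 : ℤ) : ZMod p) = 0 := by exact_mod_cast h0
    rw [ZMod.intCast_zmod_eq_zero_iff_dvd] at h1
    have h2 : p ∣ 2 := by exact_mod_cast h1
    have := Nat.le_of_dvd (by norm_num) h2
    omega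
  have hn0 : ((n : ℤ) : ZMod p) ≠ 0 := fun h0 => hpn ((ZMod.intCast_zmod_eq_zero_iff_dvd _ _).1 h0)
  have hleg : legendreSym p n = 1 := by
    rw [← lu_eq hpn, hlu, Units.val_one]
  obtain ⟨z, hz⟩ := (legendreSym.eq_one_iff p hn0).1 hleg
  rw [← pow_two] at hz
  have hz0 : z ≠ 0 := by
    rintro rfl
    apply hn0
    rw [hz]
    ring
  set F := f.map (Int.castRingHom (ZMod p)) with hF
  have hH := hh (ZMod p) z hz.symm
  rw [← hF] at hH
  rw [rho_zmod f hp, rho_zmod h hp]
  set Rf := (univ : Finset (ZMod p)).filter (fun a => F.eval a = 0) with hRf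
  have e1 : ∀ a, (h.map (Int.castRingHom (ZMod p))).eval a = F.eval (a + z) * F.eval (a - z) := by
    intro a
    rw [hH, eval_mul, eval_comp, eval_comp]
    simp only [eval_add, eval_X, eval_C]
    rw [sub_eq_add_neg]
  have hUV' := congrArg (Polynomial.map (Int.castRingHom (ZMod p))) hUV
  rw [Polynomial.map_add, Polynomial.map_mul, Polynomial.map_mul, Polynomial.map_C,
    ← derivative_map] at hUV'
  -- the two families are disjoint
  have hdis : Disjoint (Rf.image (fun a => a - z)) (Rf.image (fun a => a + z)) := by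
    rw [disjoint_left]
    intro w hw1 hw2
    obtain ⟨a, ha, hwa⟩ := mem_image.1 hw1
    obtain ⟨b, hb, hwb⟩ := mem_image.1 hw2
    have ha' : F.eval (w + z) = 0 := by
      rw [← hwa, sub_add_cancel]
      exact (mem_filter.1 ha).2
    have hb' : F.eval (w - z) = 0 := by
      rw [← hwb, add_sub_cancel_right]
      exact (mem_filter.1 hb).2
    have h1 : (h.map (Int.castRingHom (ZMod p))).eval w = 0 := by rw [e1, ha', zero_mul]
    have h2 : (derivative (h.map (Int.castRingHom (ZMod p)))).eval w = 0 := by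
      rw [hH, derivative_mul, eval_add, eval_mul, eval_mul]
      have h3 : (F.comp (X + C (-z))).eval w = 0 := by
        rw [eval_comp, eval_add, eval_X, eval_C, ← sub_eq_add_neg]
        exact hb'
      have h4 : (F.comp (X + C z)).eval w = 0 := by
        rw [eval_comp, eval_add, eval_X, eval_C]
        exact ha'
      rw [h3, h4]
      ring
    have h3 := congrArg (eval w) hUV'
    rw [eval_add, eval_mul, eval_mul, h1, h2, mul_zero, mul_zero, add_zero, eval_C] at h3
    exact hN0 h3.symm
  have hsub : Rf.image (fun a => a - z) ∪ Rf.image (fun a => a + z) ⊆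
      (univ : Finset (ZMod p)).filter (fun a => (h.map (Int.castRingHom (ZMod p))).eval a = 0) := by
    intro w hw
    rw [mem_filter]
    refine ⟨mem_univ _, ?_⟩
    rw [e1]
    rcases mem_union.1 hw with h1 | h1
    · obtain ⟨a, ha, rfl⟩ := mem_image.1 h1
      rw [sub_add_cancel, (mem_filter.1 ha).2, zero_mul]
    · obtain ⟨a, ha, rfl⟩ := mem_image.1 h1
      rw [add_sub_cancel_right, (mem_filter.1 ha).2, mul_zero]
  have h1 := card_le_card hsub
  rw [card_union_of_disjoint hdis, card_image_of_injective _ (sub_left_injective),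
    card_image_of_injective _ (add_left_injective z)] at h1
  omega

/-- Mertens' theorem for the non-residues -/
theorem mert_minus {n : ℤ} (hn : ∀ q : ℚ, q ^ 2 ≠ n) {f : ℤ[X]} (hfi : Irreducible f)
    (hf : Irreducible (f.map (Int.castRingHom (QF n)))) (hd : 0 < f.natDegree) :
    ∃ C : ℝ, ∀ y : ℕ, 3 ≤ y → 1 / 2 * Real.log (Real.log y) - C ≤ SS f (PM n y) := by
  classical
  have : Fact (∀ q : ℚ, q ^ 2 ≠ (n : ℚ) + 0 * q) := ⟨fun q => by
    rw [zero_mul, add_zero]
    exact hn q⟩
  have hn0 : n ≠ 0 := by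
    rintro rfl
    exact hn 0 (by simp)
  obtain ⟨P, Q, hPQ⟩ := split n f
  set h := P ^ 2 - C n * Q ^ 2 with hh
  have hirr : Irreducible (h.map (Int.castRingHom ℚ)) := irr hf hd hPQ
  have hsep : Sep h := sep_of_irr hirr
  have h0 : h ≠ 0 := by
    intro h1
    rw [h1, Polynomial.map_zero] at hirr
    exact hirr.ne_zero rfl
  have hhd : 0 < h.natDegree := by
    have h1 := hirr.natDegree_pos
    rwa [natDegree_map_eq_of_injective (RingHom.injective_int (Int.castRingHom ℚ))] at h1
  -- the primitive part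
  have hcont : h.content ≠ 0 := fun h1 => h0 (content_eq_zero_iff.1 h1)
  have hprim : h.primPart.IsPrimitive := h.isPrimitive_primPart
  have hpi : Irreducible h.primPart := by
    rw [IsPrimitive.Int.irreducible_iff_irreducible_map_cast hprim]
    have h1 : h.map (Int.castRingHom ℚ) = C (h.content : ℚ) * h.primPart.map (Int.castRingHom ℚ) := by
      conv_lhs => rw [h.eq_C_content_mul_primPart]
      rw [Polynomial.map_mul, Polynomial.map_C]
      rfl
    rw [h1] at hirr
    have hu : IsUnit (C (h.content : ℚ)) :=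
      isUnit_C.2 (isUnit_iff_ne_zero.2 (by exact_mod_cast hcont))
    exact (irreducible_isUnit_mul hu).1 hirr
  have hpd : 0 < h.primPart.natDegree := by rw [natDegree_primPart]; exact hhd
  obtain ⟨C1, hC10, hC1⟩ := mertens_rho f hfi hd
  obtain ⟨C2, hC20, hC2⟩ := mertens_rho h.primPart hpi hpd
  obtain ⟨B1, hB1⟩ := rho_two hsep (fun R _ z hz => split_mul hPQ R z hz)
  set B := B1 + n.natAbs + h.content.natAbs with hB
  set S0 : ℝ := ∑ p ∈ Icc 1 B, (rho f p : ℝ) / (p : ℝ) with hS0
  refine ⟨C1 + C2 / 2 + S0, fun y hy => ?_⟩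
  have hyr : (3 : ℝ) ≤ y := by exact_mod_cast hy
  have h1 := (abs_le.1 (hC1 y hyr)).1
  have h2 := (abs_le.1 (hC2 y hyr)).2
  have hPR : PR y = (Icc 1 y).filter Nat.Prime := by
    ext p
    rw [mem_PR, mem_filter, mem_Icc, Nat.floor_natCast]
  -- the split of the sum
  have h3 : Sg (rho f) y ≤ SS f (PM n y) + (1 / 2 * Sg (rho h.primPart) y + S0) := by
    unfold Sg SS
    rw [hPR]
    have h4 : ∀ p ∈ (Icc 1 y).filter Nat.Prime, (rho f p : ℝ) / p ≤
        (if p ∈ PM n y then (rho f p : ℝ) / p else 0) +
        (1 / 2 * ((rho h.primPart p : ℝ) / p) +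
          (if p ∈ Icc 1 B then (rho f p : ℝ) / p else 0)) := by
      intro p hp
      rw [mem_filter] at hp
      have hpos : (0 : ℝ) ≤ (rho f p : ℝ) / p := by positivity
      have hpos2 : (0 : ℝ) ≤ 1 / 2 * ((rho h.primPart p : ℝ) / p) := by positivity
      by_cases h5 : p ∈ PM n y
      · rw [if_pos h5]
        split_ifs <;> linarith
      · by_cases h6 : p ∈ Icc 1 B
        · rw [if_pos h6, if_neg h5]
          linarith
        · rw [if_neg h5, if_neg h6, zero_add, add_zero]
          have hpB : B < p := by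
            rw [mem_Icc, not_and] at h6
            exact not_le.1 (h6 hp.2.one_lt.le)
          have hlu : lu p n = 1 := by
            by_contra hne
            apply h5
            unfold PM
            rw [mem_filter]
            exact ⟨hp.1, hp.2, hne⟩
          have hpn : ¬ (p : ℤ) ∣ n := by
            intro h7
            have := Nat.le_of_dvd (Int.natAbs_pos.2 hn0) (Int.natCast_dvd.1 h7)
            omega
          have hpc : ¬ (p : ℤ) ∣ h.content := by
            intro h7
            have := Nat.le_of_dvd (Int.natAbs_pos.2 hcont) (Int.natCast_dvd.1 h7)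
            omega
          have h7 := hB1 p hp.2 (by omega) hpn hlu
          have h8 : rho h p = rho h.primPart p := by
            conv_lhs => rw [h.eq_C_content_mul_primPart]
            exact rho_C_mul hp.2 hpc
          rw [h8] at h7
          have h9 : (2 : ℝ) * rho f p ≤ rho h.primPart p := by exact_mod_cast h7
          rw [mul_div_assoc']
          apply div_le_div_of_nonneg_right _ (Nat.cast_nonneg _)
          linarith
    refine (sum_le_sum h4).trans ?_
    rw [sum_add_distrib, sum_add_distrib, ← mul_sum, ← sum_filter, ← sum_filter]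
    have h5 : ((Icc 1 y).filter Nat.Prime).filter (fun p => p ∈ PM n y) ⊆ PM n y :=
      fun p hp => (mem_filter.1 hp).2
    have h6 : ((Icc 1 y).filter Nat.Prime).filter (fun p => p ∈ Icc 1 B) ⊆ Icc 1 B :=
      fun p hp => (mem_filter.1 hp).2
    have h7 := sum_le_sum_of_subset_of_nonneg h5
      (f := fun p => (rho f p : ℝ) / p) (fun p _ _ => by positivity)
    have h8 := sum_le_sum_of_subset_of_nonneg h6
      (f := fun p => (rho f p : ℝ) / p) (fun p _ _ => by positivity)
    linarith
  linarith

end Pool.Agent.U409.LS
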