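import Pool.Agent.U409.LS.Kern
import Pool.Agent.U409.SH.Desc

/-!
# Cocycles that are coboundaries

If two of the cocycles of `Kern` differ by a coboundary, then the product of the two integers is,
up to squares, the abscissa of a rational point of the curve `y² = x (x - a) (x - b)`.
-/

set_option autoImplicit false

namespace Pool.Agent.U409.LS

open WeierstrassCurve
open Pool.Agent.W262.SH (QB Pt act IsCoc IsCob LocTriv shaCoc cob Sha E)
open Pool.Agent.TH841.SH (IsR IsX act_some act_inj act_act gf fix_mem act_gf)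
open Pool.Agent.U409.SH (isR incl incl_inj incl_some incl_fixed)

open scoped Classical

variable {A B : ℤ}

lemma rt_mul {b c : ℤ} {s t : QB} (hs : IsRt b s) (ht : IsRt c t) : IsRt (b * c) (s * t) := by
  unfold IsRt at *
  rw [mul_pow, hs, ht]
  push_cast
  ring

lemma T0_neg (h : Ok A B) (L : Type) [Field L] [Algebra ℚ L] : -T0 h L = T0 h L := by
  rw [neg_eq_iff_add_eq_zero, T0_two]

lemma fs_sub (h : Ok A B) {b c : ℤ} (hb : b ≠ 0) (hc : c ≠ 0) {s t : QB} (hs : IsRt b s)
    (ht : IsRt c t) (σ : QB ≃ₐ[ℚ] QB) : fs h s σ - fs h t σ = fs h (s * t) σ := by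
  have hs0 := rt_ne hb hs
  have ht0 := rt_ne hc ht
  have h1 := neg_ne hs0
  have h2 := neg_ne ht0
  have h3 := neg_ne (mul_ne_zero hs0 ht0)
  unfold fs
  rw [map_mul]
  rcases rt_pm hs σ with e1 | e1 <;> rcases rt_pm ht σ with e2 | e2
  · rw [e1, e2, if_pos rfl, if_pos rfl, if_pos rfl, sub_zero]
  · rw [e1, e2, if_pos rfl, if_neg h2, mul_neg, if_neg h3, zero_sub, T0_neg]
  · rw [e1, e2, if_pos rfl, if_neg h1, neg_mul, if_neg h3, sub_zero]
  · rw [e1, e2, if_neg h1, if_neg h2, neg_mul_neg, if_pos rfl, sub_self]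

/-- a number that is fixed by all automorphisms -/
lemma sq_of_fix {q : ℚ} {w : QB} (hw : w ^ 2 = (q : QB)) (h : ∀ σ : QB ≃ₐ[ℚ] QB, σ w = w) :
    IsSquare q := by
  obtain ⟨y, hy⟩ := fix_mem w h
  refine ⟨y, ?_⟩
  have h1 : algebraMap ℚ QB q = algebraMap ℚ QB (y * y) := by
    rw [map_mul, hy, ← pow_two, hw]
    rfl
  exact (algebraMap ℚ QB).injective h1

/-- cocycles that differ by a coboundary -/
theorem glob (h : Ok A B) {b c : ℤ} (hb : b ≠ 0) (hc : c ≠ 0) {s t : QB} (hs : IsRt b s)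
    (ht : IsRt c t) (hcob : IsCob (Wc A B) (fun σ => fs h s σ - fs h t σ)) :
    IsSquare ((b * c : ℤ) : ℚ) ∨ IsSquare ((b * c : ℤ) * B : ℚ) ∨
      ∃ x y : ℚ, x ≠ 0 ∧ y ^ 2 = x * (x ^ 2 + A * x + B) ∧ IsSquare (x * (b * c : ℤ) : ℚ) := by
  obtain ⟨P, hP⟩ := hcob
  set w := s * t with hw
  have hrt : IsRt (b * c) w := rt_mul hs ht
  have hbc : b * c ≠ 0 := mul_ne_zero hb hc
  have hw0 := rt_ne hbc hrt
  have hwn := neg_ne hw0
  have hP' : ∀ σ : QB ≃ₐ[ℚ] QB, act (Wc A B) σ.toAlgHom P = P + fs h w σ := by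
    intro σ
    rw [← fs_sub h hb hc hs ht σ, add_comm, ← sub_eq_iff_eq_add]
    exact (hP σ).symm
  have hw2 : w ^ 2 = (((b * c : ℤ) : ℚ) : QB) := by
    rw [hrt]
    push_cast
    rfl
  -- the case in which `P` is fixed
  have hfix : (∀ σ : QB ≃ₐ[ℚ] QB, act (Wc A B) σ.toAlgHom P = P) →
      IsSquare ((b * c : ℤ) : ℚ) := by
    intro hf
    apply sq_of_fix hw2
    intro σ
    by_contra hne
    have h1 := hP' σ
    have h2 : fs h w σ = T0 h QB := if_neg hne
    rw [hf σ, h2] at h1
    exact T0_ne h QB (left_eq_add.1 h1)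
  rcases P with _ | ⟨X, Y, hn⟩
  · left
    exact hfix fun σ => map_zero _
  have he := ((is2L A B QB).eqn X Y).1 hn.1
  by_cases hX : X = 0
  · left
    apply hfix
    intro σ
    have hY : Y = 0 := by
      rw [hX, zero_mul] at he
      exact pow_eq_zero_iff two_ne_zero |>.1 he
    subst hX hY
    exact act_T0 h _
  have hb' := h.b QB
  obtain ⟨hn', e⟩ := (is2L A B QB).trans hn hX (nons0 h _)
  have hXY : ∀ σ : QB ≃ₐ[ℚ] QB, (σ w = w ∧ σ X = X ∧ σ Y = Y) ∨
      (σ w = -w ∧ σ X = ((A : QB) ^ 2 - 4 * B) / X ∧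
        σ Y = -(((A : QB) ^ 2 - 4 * B) * Y) / X ^ 2) := by
    intro σ
    have h1 := hP' σ
    rcases rt_pm hrt σ with h2 | h2
    · left
      have h3 : fs h w σ = 0 := if_pos h2
      rw [h3, add_zero, act_some, Affine.Point.some.injEq] at h1
      exact ⟨h2, h1⟩
    · right
      have h3 : fs h w σ = T0 h QB := by
        apply if_neg
        rw [h2]
        exact hwn
      rw [h3] at h1
      have h4 : (Affine.Point.some X Y hn : Pt (Wc A B) QB) + T0 h QB = .some _ _ hn' := e
      rw [h4, act_some, Affine.Point.some.injEq] at h1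
      exact ⟨h2, h1⟩
  by_cases hY : Y = 0
  · -- the points of order two
    right; left
    have h1 : X ^ 2 + (-2 * (A : QB)) * X + ((A : QB) ^ 2 - 4 * B) = 0 := by
      have h2 : X * (X ^ 2 + (-2 * (A : QB)) * X + ((A : QB) ^ 2 - 4 * B)) = 0 := by
        rw [← he, hY]
        ring
      exact (mul_eq_zero.1 h2).resolve_left hX
    apply sq_of_fix (w := (X - A) / 2 * w)
    · rw [mul_pow, hrt]
      push_cast
      linear_combination (1 / 4 : QB) * b * c * h1
    · intro σ
      rcases hXY σ with ⟨h2, h3, _⟩ | ⟨h2, h3, _⟩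
      · rw [map_mul, map_div₀, map_sub, h2, h3, map_intCast, map_ofNat]
      · rw [map_mul, map_div₀, map_sub, h2, h3, map_intCast, map_ofNat]
        have h4 : ((A : QB) ^ 2 - 4 * B) / X = 2 * A - X := by
          rw [div_eq_iff hX]
          linear_combination h1
        rw [h4]
        ring
  · right; right
    set v : QB := Y / (2 * X) with hv
    have hv0 : v ≠ 0 := div_ne_zero hY (mul_ne_zero two_ne_zero hX)
    set y' : QB := Y * (((A : QB) ^ 2 - 4 * B) - X ^ 2) / (8 * X ^ 2) with hy'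
    have hσv : ∀ σ : QB ≃ₐ[ℚ] QB, (σ w = w ∧ σ v = v) ∨ (σ w = -w ∧ σ v = -v) := by
      intro σ
      rcases hXY σ with ⟨h2, h3, h4⟩ | ⟨h2, h3, h4⟩
      · left
        refine ⟨h2, ?_⟩
        rw [hv, map_div₀, map_mul, h3, h4, map_ofNat]
      · right
        refine ⟨h2, ?_⟩
        rw [hv, map_div₀, map_mul, h3, h4, map_ofNat]
        field_simp
    have hσy : ∀ σ : QB ≃ₐ[ℚ] QB, σ y' = y' := by
      intro σ
      rcases hXY σ with ⟨h2, h3, h4⟩ | ⟨h2, h3, h4⟩
      · rw [hy', map_div₀, map_mul, map_mul, map_sub, map_sub, map_mul, map_pow, map_pow, h3, h4,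
          map_ofNat, map_ofNat, map_intCast, map_intCast]
      · rw [hy', map_div₀, map_mul, map_mul, map_sub, map_sub, map_mul, map_pow, map_pow, h3, h4,
          map_ofNat, map_ofNat, map_intCast, map_intCast]
        field_simp
        ring
    obtain ⟨x0, hx0⟩ := fix_mem (K := ℚ) (v ^ 2) (fun σ => by
      rw [map_pow]
      rcases hσv σ with ⟨_, h3⟩ | ⟨_, h3⟩
      · rw [h3]
      · rw [h3, neg_sq])
    obtain ⟨y0, hy0⟩ := fix_mem (K := ℚ) y' hσy
    refine ⟨x0, y0, ?_, ?_, ?_⟩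
    · rintro rfl
      rw [map_zero] at hx0
      exact hv0 (pow_eq_zero_iff two_ne_zero |>.1 hx0.symm)
    · apply (algebraMap ℚ QB).injective
      rw [map_pow, map_mul, map_add, map_add, map_mul, map_pow, hx0, hy0, map_intCast,
        map_intCast, hy', hv]
      have e8 : (8 : QB) ≠ 0 := by norm_num
      have e2 : (2 : QB) ≠ 0 := two_ne_zero
      rw [div_pow, div_pow, div_pow]
      rw [mul_pow Y, he]
      have hq : (X ^ 2 + (-2 * (A : QB)) * X + ((A : QB) ^ 2 - 4 * B)) ≠ 0 := by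
        intro h0
        rw [h0, mul_zero] at he
        exact hY (pow_eq_zero_iff two_ne_zero |>.1 he)
      field_simp
      ring
    · apply sq_of_fix (w := v * w)
      · rw [mul_pow, hrt, ← hx0]
        push_cast
        rfl
      · intro σ
        rcases hσv σ with ⟨h2, h3⟩ | ⟨h2, h3⟩
        · rw [map_mul, h2, h3]
        · rw [map_mul, h2, h3, neg_mul_neg]

/-- abscissae of points that are congruent modulo `2 E(ℚ)` -/
theorem sq_class {a b : ℤ} (ha : a ≠ 0) (hb : b ≠ 0) (hab : a ≠ b) {x y x' y' : ℚ}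
    (hn : ((E a b).baseChange ℚ).toAffine.Nonsingular x y)
    (hn' : ((E a b).baseChange ℚ).toAffine.Nonsingular x' y')
    (U : Pt (E a b) ℚ)
    (hU : (Affine.Point.some x y hn : Pt (E a b) ℚ) - .some x' y' hn' = 2 • U) :
    IsSquare (x * x') := by
  have hinj : Function.Injective (algebraMap ℚ QB) := (algebraMap ℚ QB).injective
  have ha' : (0 : ℚ) ≠ (a : ℚ) := fun h => ha (by exact_mod_cast h.symm)
  have hb' : (0 : ℚ) ≠ (b : ℚ) := fun h => hb (by exact_mod_cast h.symm)
  have hab' : (a : ℚ) ≠ (b : ℚ) := fun h => hab (by exact_mod_cast h)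
  have hR := (isR a b).base QB
  set S' : Pt (E a b) ℚ := .some x' y' hn' with hS'
  set S : Pt (E a b) ℚ := .some x y hn with hS
  obtain ⟨R', hR'⟩ := hR.div two_ne_zero (hinj.ne ha') (hinj.ne hb')
    (hinj.ne hab') (incl (E a b) S')
  set R := R' + incl (E a b) U with hRR
  have hR2 : incl (E a b) S = R + R := by
    have h1 : S = S' + 2 • U := by rw [← hU]; abel
    rw [h1, map_add, hR', two_nsmul, map_add, hRR]
    abel
  -- the action
  have hact : ∀ σ : QB ≃ₐ[ℚ] QB, ∃ T : Pt (E a b) QB, T + T = 0 ∧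
      act (E a b) σ.toAlgHom R' = R' + T ∧ act (E a b) σ.toAlgHom R = R + T := by
    intro σ
    refine ⟨act (E a b) σ.toAlgHom R' - R', ?_, by abel, ?_⟩
    · have e : (act (E a b) σ.toAlgHom R' - R') + (act (E a b) σ.toAlgHom R' - R') =
          act (E a b) σ.toAlgHom (R' + R') - (R' + R') := by
        rw [map_add]
        abel
      rw [e, ← hR', incl_fixed, sub_self]
    · rw [hRR, map_add, incl_fixed]
      abel
  have key : ∀ (S : Pt (E a b) ℚ) (x y : ℚ) (hn : ((E a b).baseChange ℚ).toAffine.Nonsingular x y)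
      (R : Pt (E a b) QB), S = .some x y hn → incl (E a b) S = R + R →
      (gf ((E a b).baseChange QB) (algebraMap ℚ QB 0) (algebraMap ℚ QB a) (algebraMap ℚ QB b) R) ^ 2
        = algebraMap ℚ QB x ∧
      ∀ (σ : QB ≃ₐ[ℚ] QB) (T : Pt (E a b) QB), T + T = 0 →
        act (E a b) σ.toAlgHom R = R + T →
        σ (gf ((E a b).baseChange QB) (algebraMap ℚ QB 0) (algebraMap ℚ QB a)
          (algebraMap ℚ QB b) R) = (if IsX ((E a b).baseChange QB) (algebraMap ℚ QB 0) T
            then 1 else -1) * gf ((E a b).baseChange QB) (algebraMap ℚ QB 0)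
            (algebraMap ℚ QB a) (algebraMap ℚ QB b) R := by
    intro S x y hn R hS hR2
    rcases R with _ | ⟨u, v, hu⟩
    · exfalso
      rw [hS, incl_some] at hR2
      exact Affine.Point.some_ne_zero _ (hR2.trans (add_zero 0))
    · have hv : v ≠ 0 := by
        intro hv
        have h5 := (hR.add_self two_ne_zero hu).2 hv
        rw [h5, hS, incl_some] at hR2
        exact Affine.Point.some_ne_zero _ hR2
      obtain ⟨X, Y, hXY, e1, hX⟩ := hR.dup two_ne_zero hu hv
      refine ⟨?_, fun σ T hT hσ => ?_⟩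
      · rw [hS, incl_some] at hR2
        have h6 := hR2.trans e1
        have h7 : algebraMap ℚ QB x = X := (Affine.Point.some.inj h6).1
        rw [h7]
        have h8 : X = X - algebraMap ℚ QB 0 := by rw [map_zero, sub_zero]
        rw [h8, hX]
        rfl
      · have h9 := act_gf (W := E a b) (a := 0) (b := a) (c := b) σ.toAlgHom (.some u v hu)
        have h10 : σ (gf ((E a b).baseChange QB) (algebraMap ℚ QB 0) (algebraMap ℚ QB a)
          (algebraMap ℚ QB b) (.some u v hu)) = _ := h9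
        rw [h10, hσ]
        obtain ⟨u', v', hu', e2, hv', h3, h4⟩ := hR.sign two_ne_zero (hinj.ne ha') (hinj.ne hb')
          (hinj.ne hab') hu hv hT
        have e2' : (Affine.Point.some u v hu : Pt (E a b) QB) + T = .some u' v' hu' := e2
        rw [e2']
        by_cases hX : IsX ((E a b).baseChange QB) (algebraMap ℚ QB 0) T
        · rw [if_pos hX, one_mul]
          exact h3 hX
        · rw [if_neg hX, neg_one_mul]
          exact h4 hX
  obtain ⟨k1, k2⟩ := key S x y hn R hS hR2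
  obtain ⟨k3, k4⟩ := key S' x' y' hn' R' hS' hR'
  refine sq_of_fix (w := gf ((E a b).baseChange QB) (algebraMap ℚ QB 0) (algebraMap ℚ QB a)
    (algebraMap ℚ QB b) R * gf ((E a b).baseChange QB) (algebraMap ℚ QB 0) (algebraMap ℚ QB a)
    (algebraMap ℚ QB b) R') ?_ ?_
  · rw [mul_pow, k1, k3, ← map_mul]
    rfl
  · intro σ
    obtain ⟨T, hT, h1, h2⟩ := hact σ
    rw [map_mul, k2 σ T hT h2, k4 σ T hT h1]
    split_ifs
    · ring
    · ring

end Pool.Agent.U409.LS
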