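import Pool.Agent.U409.SH.Sel2
import Pool.Agent.U409.SH.Tor

/-!
# Classes in the Tate-Shafarevich group that come from a rational point of order two

`W : y² = x³ - 2 A x² + (A² - 4 B) x` is the quotient of `y² = x³ + A x² + B x` by the point
`(0, 0)`.  For a nonzero integer `b` the function `f σ = 0` if `σ (√b) = √b` and `f σ = (0, 0)`
otherwise is a cocycle with values in the points of `W`.
-/

set_option autoImplicit false

namespace Pool.Agent.U409.LS

open WeierstrassCurve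
open Pool.Agent.W262.SH (QB Pt act IsCoc IsCob LocTriv shaCoc cob Sha)
open Pool.Agent.TH841.SH (act_some act_inj act_act)

open scoped Classical

/-- the curve `y² = x³ - 2 A x² + (A² - 4 B) x` -/
def Wc (A B : ℤ) : WeierstrassCurve ℚ := ⟨0, -2 * (A : ℚ), 0, (A : ℚ) ^ 2 - 4 * B, 0⟩

section field

variable {K : Type*} [Field K]

/-- the curve `y² = x³ + a x² + b x` -/
structure Is2 (W : WeierstrassCurve K) (a b : K) : Prop where
  h1 : W.a₁ = 0
  h2 : W.a₂ = a
  h3 : W.a₃ = 0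
  h4 : W.a₄ = b
  h6 : W.a₆ = 0

variable {W : WeierstrassCurve K} {a b : K}

lemma Is2.eqn (h : Is2 W a b) (x y : K) :
    W.toAffine.Equation x y ↔ y ^ 2 = x * (x ^ 2 + a * x + b) := by
  rw [Affine.equation_iff]
  show y ^ 2 + W.a₁ * x * y + W.a₃ * y = x ^ 3 + W.a₂ * x ^ 2 + W.a₄ * x + W.a₆ ↔ _
  rw [h.h1, h.h2, h.h3, h.h4, h.h6]
  constructor
  · intro h; linear_combination h
  · intro h; linear_combination h

lemma Is2.nons (h : Is2 W a b) (h2 : (2 : K) ≠ 0) (hb : b ≠ 0) (hab : a ^ 2 - 4 * b ≠ 0)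
    {x y : K} (he : y ^ 2 = x * (x ^ 2 + a * x + b)) : W.toAffine.Nonsingular x y := by
  rw [Affine.nonsingular_iff]
  refine ⟨(h.eqn x y).2 he, ?_⟩
  by_cases hy : y = 0
  · left
    show W.a₁ * y ≠ 3 * x ^ 2 + 2 * W.a₂ * x + W.a₄
    rw [h.h1, h.h2, h.h4, hy, mul_zero]
    subst hy
    have h0 : x * (x ^ 2 + a * x + b) = 0 := by rw [← he]; ring
    intro h3
    rcases mul_eq_zero.1 h0 with h4 | h4
    · rw [h4] at h3
      apply hb
      linear_combination -h3
    · have h5 : x * (2 * x + a) = 0 := by linear_combination -h3 - h4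
      rcases mul_eq_zero.1 h5 with h6 | h6
      · rw [h6] at h4
        apply hb
        linear_combination h4
      · apply hab
        linear_combination (2 * x + a) * h6 - 4 * h4
  · right
    show y ≠ -y - W.a₁ * x - W.a₃
    rw [h.h1, h.h3, zero_mul, sub_zero, sub_zero]
    intro h5
    apply hy
    have h6 : 2 * y = 0 := by linear_combination h5
    exact (mul_eq_zero.1 h6).resolve_left h2

lemma Is2.negY (h : Is2 W a b) (x y : K) : W.toAffine.negY x y = -y := by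
  show -y - W.a₁ * x - W.a₃ = -y
  rw [h.h1, h.h3]
  ring

variable [DecidableEq K]

/-- the sum with the point `(0, 0)` -/
lemma Is2.trans (h : Is2 W a b) {u v : K}
    (hn : W.toAffine.Nonsingular u v) (hu : u ≠ 0) (h0 : W.toAffine.Nonsingular 0 0) :
    ∃ hn' : W.toAffine.Nonsingular (b / u) (-(b * v) / u ^ 2),
      (Affine.Point.some u v hn : W.toAffine.Point) + .some 0 0 h0 = .some _ _ hn' := by
  have he := (h.eqn u v).1 hn.1
  have e1 : W.toAffine.slope u 0 v 0 = v / u := by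
    rw [Affine.slope_of_X_ne hu, sub_zero, sub_zero]
  have e2 : W.toAffine.addX u 0 (W.toAffine.slope u 0 v 0) = b / u := by
    rw [e1]
    show (v / u) ^ 2 + W.a₁ * (v / u) - W.a₂ - u - 0 = _
    rw [h.h1, h.h2, zero_mul, add_zero, sub_zero, div_pow, he]
    field_simp
    ring
  have e3 : W.toAffine.addY u 0 v (W.toAffine.slope u 0 v 0) = -(b * v) / u ^ 2 := by
    show -(W.toAffine.slope u 0 v 0 * (W.toAffine.addX u 0 (W.toAffine.slope u 0 v 0) - u) + v) -
      W.a₁ * _ - W.a₃ = _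
    rw [e2, e1, h.h1, h.h3]
    field_simp
    ring
  have e4 := Affine.Point.add_of_X_ne (W := W.toAffine) (h₁ := hn) (h₂ := h0) hu
  have e5 := Affine.nonsingular_add hn h0 (fun hxy => hu hxy.left)
  rw [e2, e3] at e5
  refine ⟨e5, ?_⟩
  rw [e4]
  congr 1

end field

lemma is2 (A B : ℤ) : Is2 (Wc A B) (-2 * (A : ℚ)) ((A : ℚ) ^ 2 - 4 * B) := ⟨rfl, rfl, rfl, rfl, rfl⟩

lemma is2L (A B : ℤ) (L : Type) [Field L] [Algebra ℚ L] :
    Is2 ((Wc A B).baseChange L) (-2 * (A : L)) ((A : L) ^ 2 - 4 * B) where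
  h1 := map_zero _
  h2 := by
    show algebraMap ℚ L (-2 * (A : ℚ)) = _
    rw [map_mul, map_neg, map_ofNat, map_intCast]
  h3 := map_zero _
  h4 := by
    show algebraMap ℚ L ((A : ℚ) ^ 2 - 4 * B) = _
    rw [map_sub, map_mul, map_pow, map_ofNat, map_intCast, map_intCast]
  h6 := map_zero _

/-- the hypothesis on the coefficients -/
structure Ok (A B : ℤ) : Prop where
  hB : B ≠ 0
  hD : A ^ 2 - 4 * B ≠ 0

variable {A B : ℤ}

lemma Ok.b (h : Ok A B) (L : Type) [Field L] [CharZero L] : (A : L) ^ 2 - 4 * B ≠ 0 := by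
  exact_mod_cast h.hD

lemma Ok.ab (h : Ok A B) (L : Type) [Field L] [CharZero L] :
    (-2 * (A : L)) ^ 2 - 4 * ((A : L) ^ 2 - 4 * B) ≠ 0 := by
  have : (-2 * (A : L)) ^ 2 - 4 * ((A : L) ^ 2 - 4 * B) = 16 * B := by ring
  rw [this]
  exact mul_ne_zero (by norm_num) (Int.cast_ne_zero.2 h.hB)

lemma nons0 (h : Ok A B) (L : Type) [Field L] [Algebra ℚ L] :
    ((Wc A B).baseChange L).toAffine.Nonsingular 0 0 := by
  have : CharZero L := algebraRat.charZero L
  exact (is2L A B L).nons two_ne_zero (h.b L) (h.ab L) (by ring)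

/-- the point `(0, 0)` -/
noncomputable def T0 (h : Ok A B) (L : Type) [Field L] [Algebra ℚ L] : Pt (Wc A B) L :=
  .some 0 0 (nons0 h L)

lemma T0_ne (h : Ok A B) (L : Type) [Field L] [Algebra ℚ L] : T0 h L ≠ 0 :=
  Affine.Point.some_ne_zero _

lemma act_T0 (h : Ok A B) {L M : Type} [Field L] [Algebra ℚ L] [Field M] [Algebra ℚ M]
    (φ : L →ₐ[ℚ] M) : act (Wc A B) φ (T0 h L) = T0 h M := by
  unfold T0
  rw [act_some, Affine.Point.some.injEq]
  exact ⟨map_zero φ, map_zero φ⟩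

lemma T0_two (h : Ok A B) (L : Type) [Field L] [Algebra ℚ L] : T0 h L + T0 h L = 0 := by
  unfold T0
  apply Affine.Point.add_self_of_Y_eq
  rw [(is2L A B L).negY, neg_zero]

/-- the cocycle of a square root `s` -/
noncomputable def fs (h : Ok A B) (s : QB) : (QB ≃ₐ[ℚ] QB) → Pt (Wc A B) QB :=
  fun σ => if σ s = s then 0 else T0 h QB

lemma fs_two (h : Ok A B) (s : QB) (σ : QB ≃ₐ[ℚ] QB) : fs h s σ + fs h s σ = 0 := by
  unfold fs
  split_ifs
  · exact add_zero 0
  · exact T0_two h QB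

lemma fs_act (h : Ok A B) (s : QB) (σ τ : QB ≃ₐ[ℚ] QB) :
    act (Wc A B) σ.toAlgHom (fs h s τ) = fs h s τ := by
  unfold fs
  split_ifs
  · exact map_zero _
  · exact act_T0 h _

/-- `s` is the square root of a nonzero integer -/
def IsRt (b : ℤ) (s : QB) : Prop := s ^ 2 = (b : QB)

lemma rt_ex (b : ℤ) : ∃ s : QB, IsRt b s := by
  obtain ⟨s, hs⟩ := IsAlgClosed.exists_pow_nat_eq (b : QB) (n := 2) (by norm_num)
  exact ⟨s, hs⟩

lemma rt_pm {b : ℤ} {s : QB} (hs : IsRt b s) (σ : QB ≃ₐ[ℚ] QB) : σ s = s ∨ σ s = -s := by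
  have h6 : (σ s) ^ 2 = s ^ 2 := by
    rw [← map_pow, hs, map_intCast]
  exact sq_eq_sq_iff_eq_or_eq_neg.1 h6

lemma rt_ne {b : ℤ} (hb : b ≠ 0) {s : QB} (hs : IsRt b s) : s ≠ 0 := by
  rintro rfl
  apply hb
  have h1 : ((b : ℤ) : QB) = 0 := by
    rw [← hs]
    ring
  exact_mod_cast h1

lemma neg_ne {K : Type*} [Field K] [CharZero K] {s : K} (hs : s ≠ 0) : -s ≠ s := by
  intro h
  apply hs
  have h1 : 2 * s = 0 := by linear_combination -h
  exact (mul_eq_zero.1 h1).resolve_left two_ne_zero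

lemma fs_coc (h : Ok A B) {b : ℤ} (hb : b ≠ 0) {s : QB} (hs : IsRt b s) :
    IsCoc (Wc A B) (fs h s) := by
  refine ⟨?_, fun σ τ => ?_⟩
  · exact (Pool.Agent.U409.SH.lc_apply s).comp (fun z => if z = s then 0 else T0 h QB)
  · rw [fs_act]
    have hs0 := rt_ne hb hs
    have hneg := neg_ne hs0
    unfold fs
    rw [AlgEquiv.mul_apply]
    rcases rt_pm hs σ with h1 | h1 <;> rcases rt_pm hs τ with h2 | h2
    · rw [h2, h1]
      simp
    · rw [h2, map_neg, h1, if_neg hneg]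
      simp
    · rw [h2, h1, if_neg hneg, if_pos rfl, add_zero]
    · rw [h2, map_neg, h1, neg_neg, if_pos rfl, if_neg hneg, T0_two]

section loc

variable {K Ω : Type} [Field K] [Field Ω] [Algebra ℚ K] [Algebra K Ω] [Algebra ℚ Ω]
  [IsScalarTower ℚ K Ω]

/-- local triviality: the case of a square -/
lemma loc_sq (h : Ok A B) {b : ℤ} {s : QB} (hs : IsRt b s)
    (ι : QB →ₐ[ℚ] Ω) (hK : IsSquare (b : K)) :
    ∃ P : Pt (Wc A B) Ω, ∀ (τ : Ω ≃ₐ[K] Ω) (σ : QB ≃ₐ[ℚ] QB),
      (τ.toAlgHom.restrictScalars ℚ).comp ι = ι.comp σ.toAlgHom →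
      act (Wc A B) ι (fs h s σ) = act (Wc A B) (τ.toAlgHom.restrictScalars ℚ) P - P := by
  have hβ2 : (ι s) ^ 2 = (b : Ω) := by
    rw [← map_pow, hs, map_intCast]
  obtain ⟨c, hc⟩ := hK
  refine ⟨0, fun τ σ hτ => ?_⟩
  rw [map_zero, sub_zero]
  have h1 : τ (ι s) = ι s := by
    have h2 : (algebraMap K Ω c) ^ 2 = (ι s) ^ 2 := by
      rw [hβ2, ← map_pow, pow_two, ← hc, map_intCast]
    rcases sq_eq_sq_iff_eq_or_eq_neg.1 h2 with h3 | h3
    · rw [← h3]
      exact τ.commutes c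
    · have h4 : ι s = -algebraMap K Ω c := by rw [h3, neg_neg]
      rw [h4, map_neg]
      congr 1
      exact τ.commutes c
  have h2 : τ (ι s) = ι (σ s) := DFunLike.congr_fun hτ s
  have h3 : σ s = s := by
    have h5 : ι (σ s) = ι s := by rw [← h2]; exact h1
    exact ι.toRingHom.injective h5
  have h4 : fs h s σ = 0 := if_pos h3
  rw [h4, map_zero]

/-- local triviality: a point of the quartic -/
lemma loc_qu (h : Ok A B) {b : ℤ} (hb : b ≠ 0) {s : QB} (hs : IsRt b s)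
    (ι : QB →ₐ[ℚ] Ω) {u N : K} (hN : (b : K) * N ^ 2 = (b * u ^ 2) ^ 2 + A * (b * u ^ 2) + B) :
    ∃ P : Pt (Wc A B) Ω, ∀ (τ : Ω ≃ₐ[K] Ω) (σ : QB ≃ₐ[ℚ] QB),
      (τ.toAlgHom.restrictScalars ℚ).comp ι = ι.comp σ.toAlgHom →
      act (Wc A B) ι (fs h s σ) = act (Wc A B) (τ.toAlgHom.restrictScalars ℚ) P - P := by
  have hs0 := rt_ne hb hs
  set β : Ω := ι s with hβ
  have hβ2 : β ^ 2 = (b : Ω) := by
    rw [hβ, ← map_pow, hs, map_intCast]
  set cu : Ω := algebraMap K Ω u with hcu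
  set cN : Ω := algebraMap K Ω N with hcN
  set X : Ω := A + 2 * b * cu ^ 2 + 2 * cN * β with hX
  set Y : Ω := 2 * cu * β * X with hY
  have hN' : (b : Ω) * cN ^ 2 = (b * cu ^ 2) ^ 2 + A * (b * cu ^ 2) + B := by
    have := congrArg (algebraMap K Ω) hN
    rw [map_mul, map_add, map_add, map_mul, map_pow, map_pow, map_mul, map_pow, map_intCast,
      map_intCast, map_intCast] at this
    exact this
  have hq : X ^ 2 + (-2 * (A : Ω)) * X + ((A : Ω) ^ 2 - 4 * B) = 4 * b * cu ^ 2 * X := by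
    rw [hX]
    linear_combination 4 * hN' + 4 * cN ^ 2 * hβ2
  have he : Y ^ 2 = X * (X ^ 2 + (-2 * (A : Ω)) * X + ((A : Ω) ^ 2 - 4 * B)) := by
    rw [hq, hY]
    linear_combination 4 * cu ^ 2 * X ^ 2 * hβ2
  have hb' : (A : Ω) ^ 2 - 4 * B ≠ 0 := by
    have : CharZero Ω := algebraRat.charZero Ω
    exact h.b Ω
  have hX0 : X ≠ 0 := by
    intro h0
    rw [h0] at hq
    apply hb'
    linear_combination hq
  have hn : ((Wc A B).baseChange Ω).toAffine.Nonsingular X Y := by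
    have h20 : (2 : Ω) ≠ 0 := by
      have : CharZero Ω := algebraRat.charZero Ω
      exact two_ne_zero
    have hab : (-2 * (A : Ω)) ^ 2 - 4 * ((A : Ω) ^ 2 - 4 * B) ≠ 0 := by
      have : CharZero Ω := algebraRat.charZero Ω
      exact h.ab Ω
    exact (is2L A B Ω).nons h20 hb' hab he
  refine ⟨.some X Y hn, fun τ σ hτ => ?_⟩
  have h2 : τ (ι s) = ι (σ s) := DFunLike.congr_fun hτ s
  have hcu' : τ cu = cu := τ.commutes u
  have hcN' : τ cN = cN := τ.commutes N
  rcases rt_pm hs σ with h3 | h3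
  · have h4 : τ β = β := by
      rw [hβ, h2, h3]
    have h5 : fs h s σ = 0 := if_pos h3
    rw [h5, map_zero]
    symm
    rw [sub_eq_zero, act_some, Affine.Point.some.injEq]
    have h6 : τ X = X := by
      rw [hX, map_add, map_add, map_mul, map_mul, map_mul, map_mul, map_pow, hcu', hcN', h4,
        map_intCast, map_intCast, map_ofNat]
    refine ⟨h6, ?_⟩
    show τ Y = Y
    rw [hY, map_mul, map_mul, map_mul, hcu', h4, h6, map_ofNat]
  · have h4 : τ β = -β := by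
      rw [hβ, h2, h3, map_neg]
    have h5 : fs h s σ = T0 h QB := by
      apply if_neg
      rw [h3]
      exact neg_ne hs0
    rw [h5, act_T0]
    symm
    rw [sub_eq_iff_eq_add, add_comm]
    obtain ⟨hn', e⟩ := (is2L A B Ω).trans hn hX0 (nons0 h _)
    have h6 : τ X = ((A : Ω) ^ 2 - 4 * B) / X := by
      rw [eq_div_iff hX0]
      have h7 : τ X = A + 2 * b * cu ^ 2 + 2 * cN * -β := by
        rw [hX, map_add, map_add, map_mul, map_mul, map_mul, map_mul, map_pow, hcu', hcN', h4,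
          map_intCast, map_intCast, map_ofNat]
      rw [h7, hX]
      linear_combination (-4) * hN' - 4 * cN ^ 2 * hβ2
    have h8 : (Affine.Point.some X Y hn : Pt (Wc A B) Ω) + T0 h Ω = .some _ _ hn' := e
    rw [h8, act_some, Affine.Point.some.injEq]
    refine ⟨h6, ?_⟩
    show τ Y = _
    rw [hY, map_mul, map_mul, map_mul, hcu', h4, h6, map_ofNat]
    field_simp

end loc

/-- local triviality -/
theorem fs_loc (h : Ok A B) {b : ℤ} (hb : b ≠ 0) {s : QB} (hs : IsRt b s) (K : Type) [Field K]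
    [Algebra ℚ K] (hK : IsSquare (b : K) ∨
      ∃ u N : K, (b : K) * N ^ 2 = (b * u ^ 2) ^ 2 + A * (b * u ^ 2) + B) :
    LocTriv (Wc A B) K (fs h s) := by
  intro ι
  rcases hK with hK | ⟨u, N, hN⟩
  · exact loc_sq h hs ι hK
  · exact loc_qu h hb hs ι hN

end Pool.Agent.U409.LS
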